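import Pool.Agent.MP_92db0f_lc_mul.Defs

/-!
The class `NE` relative to an oracle, and computations with few long queries to an oracle in `NP`.
-/

set_option autoImplicit false

namespace Pool.Agent.MP_92db0f_lc_thr

open Turing Computability Lib.helper60 MP_92db0f_lc_alg

/-- The class `NE = NTIME(2^{O(n)})` relative to the oracle `O`: membership of `x` is witnessed by
certificates of length at most `2 ^ (k * |x| + k)`, which a deterministic machine with the oracle
`O` checks in time polynomial in the length of `x` and the certificate. -/
def InNE (O L : Set (List Bool)) : Prop :=
  ∃ (k : ℕ) (R : List Bool × List Bool → Prop), PolyTime encPair O R ∧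
    ∀ x, x ∈ L ↔ ∃ y : List Bool, y.length ≤ 2 ^ (k * x.length + k) ∧ R (x, y)

/-- The strings `Q` that have a certificate of length at most `|ω Q|`. -/
def certified (ω : List Bool → List Bool) (R : List Bool × List Bool → Prop) :
    Set (List Bool) :=
  {Q | ∃ y : List Bool, y.length ≤ (ω Q).length ∧ R (Q, y)}

/-- The language `L` is decided, relative to `O`, by the following computation. It has access to
`O` (queries that begin with `0`) and to an oracle in `NP` relative to `O` (queries that begin with
`1`), namely the set of all strings `Q` that have a certificate `y` of length at most `|ω Q|`. The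
certificates are checked by the predicate `R`, in polynomial time with the oracle `O`; the bound
`ω` is computed in polynomial time. The function `q` gives the next query and `d` the decision;
both are computed in time polynomial in the length of the input, the advice `adv n` (which depends
on the length `n` of the input only) and the list of the answers so far. On inputs of length `n`
there are `2 ^ T n` queries (an empty query does nothing), and for every `ℓ`, at most `F n ℓ` of
them are queries `Q` to the oracle in `NP` with `|ω Q| ≥ ℓ`. -/
structure Decides (O : Set (List Bool)) (T : ℕ → ℕ) (F : ℕ → ℕ → ℕ) (adv : ℕ → List Bool)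
    (ω : List Bool → List Bool) (R : List Bool × List Bool → Prop)
    (q : (List Bool × List Bool) × List Bool → List Bool)
    (d : (List Bool × List Bool) × List Bool → Bool) (L : Set (List Bool)) : Prop where
  oracle : PolyTime encPair O R
  bound : Nonempty (TM2ComputableInPolyTime (fun w : List Bool => w) (fun w => w) ω)
  query : Nonempty (TM2ComputableInPolyTime
    (fun z : (List Bool × List Bool) × List Bool => encPair (encPair z.1, z.2)) (fun w => w) q)
  decision : Nonempty (TM2ComputableInPolyTime
    (fun z : (List Bool × List Bool) × List Bool => encPair (encPair z.1, z.2)) encodeBool d)
  profile : ∀ (x : List Bool) (ℓ : ℕ), {i : ℕ | i < 2 ^ T x.length ∧ ∃ Q : List Bool, q ((x,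
    adv x.length), answers (join O (certified ω R)) q (x, adv x.length) i) = true :: Q ∧
      ℓ ≤ (ω Q).length}.ncard ≤ F x.length ℓ
  decides : ∀ x : List Bool, x ∈ L ↔ d ((x, adv x.length),
    answers (join O (certified ω R)) q (x, adv x.length) (2 ^ T x.length)) = true

end Pool.Agent.MP_92db0f_lc_thr
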