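import Pool.Agent.MP_92db0f_lc_thr.Root
import Pool.Agent.MP_92db0f_lc_thr.Defs
import Pool.Agent.MP_92db0f_lc.Certs
import Pool.Agent.MP_92db0f_lc_alg.Final

/-!
Predicates decided in polynomial time with an oracle: closure properties.
-/

set_option autoImplicit false

namespace Pool.Agent.MP_92db0f_lc_thr

open Turing Computability Lib.helper60 MP_92db0f_lc_alg
open MP_92db0f_lc hiding answers InNEXP

/-- the predicate `h` is decided in polynomial time with the oracle `O` -/
def OP {α : Type} [DEnc α] (O : Set (List Bool)) (h : α → Bool) : Prop :=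
  ∃ (q : α × List Bool → List Bool) (g : α × List Bool → Bool) (K : α → ℕ),
    PT q ∧ PT g ∧ PT K ∧ ∀ a, h a = g (a, answers O q a (K a))

/-- there is a bound for the size that is computed in polynomial time -/
def HasSz (α : Type) [DEnc α] : Prop := ∃ sz : α → ℕ, PT sz ∧ ∀ a, tsize a ≤ sz a

lemma HasSz.bits : HasSz (List Bool) :=
  ⟨fun w => 4 * w.length + 1, PT.nsucc (PT.nmul (PT.const 4) (PT.length PT.id)), tsize_bits_le⟩

lemma HasSz.nat : HasSz ℕ :=
  ⟨fun n => 2 * n + 1, PT.nsucc (PT.nmul (PT.const 2) PT.id), fun n => (tsize_nat n).le⟩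

lemma HasSz.bool : HasSz Bool := ⟨fun _ => 3, PT.const 3, tsize_bool_le⟩

lemma HasSz.prod {α β : Type} [DEnc α] [DEnc β] (hα : HasSz α) (hβ : HasSz β) :
    HasSz (α × β) := by
  obtain ⟨s, hs, h1⟩ := hα
  obtain ⟨t, ht, h2⟩ := hβ
  refine ⟨fun p => s p.1 + t p.2 + 1, PT.nsucc (PT.nadd (hs.comp PT.fst) (ht.comp PT.snd)), ?_⟩
  rintro ⟨a, b⟩
  rw [tsize_pair]
  have := h1 a
  have := h2 b
  dsimp only
  omega

section

variable {α β : Type} [DEnc α] [DEnc β] {O : Set (List Bool)}

lemma OP.of_PT {h : α → Bool} (hh : PT h) : OP O h :=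
  ⟨fun _ => [], fun z => h z.1, fun _ => 0, PT.const _, hh.comp PT.fst, PT.const _, fun _ => rfl⟩

lemma OP.comp {h : α → Bool} (hh : OP O h) {f : β → α} (hf : PT f) : OP O (fun b => h (f b)) := by
  obtain ⟨q, g, K, hq, hg, hK, H⟩ := hh
  refine ⟨fun z => q (f z.1, z.2), fun z => g (f z.1, z.2), fun b => K (f b),
    hq.comp (PT.pair (hf.comp PT.fst) PT.snd), hg.comp (PT.pair (hf.comp PT.fst) PT.snd),
    hK.comp hf, fun b => ?_⟩
  dsimp only
  rw [H, answers_congr O q (fun z => q (f z.1, z.2)) (f b) b (fun _ => rfl)]

lemma OP.congr {h h' : α → Bool} (hh : OP O h) (he : ∀ a, h a = h' a) : OP O h' := by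
  obtain ⟨q, g, K, hq, hg, hK, H⟩ := hh
  exact ⟨q, g, K, hq, hg, hK, fun a => by rw [← he, H]⟩

lemma OP.query {w : α → List Bool} (hw : PT w) :
    OP O (fun a => @decide (w a ∈ O) (Classical.propDecidable _)) := by
  refine ⟨fun z => w z.1, fun z => z.2.headD false, fun _ => 1, hw.comp PT.fst,
    PT.headD PT.snd (PT.const false), PT.const 1, fun a => ?_⟩
  simp [answers]

lemma OP.ite {c h h' : α → Bool} (hc : PT c) (hh : OP O h) (hh' : OP O h') :
    OP O (fun a => bif c a then h a else h' a) := by
  obtain ⟨q, g, K, hq, hg, hK, H⟩ := hh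
  obtain ⟨q', g', K', hq', hg', hK', H'⟩ := hh'
  have hc' : PT (fun z : α × List Bool => c z.1) := hc.comp PT.fst
  refine ⟨fun z => bif c z.1 then q z else q' z, fun z => bif c z.1 then g z else g' z,
    fun a => bif c a then K a else K' a, PT.cond hc' hq hq', PT.cond hc' hg hg',
    PT.cond hc hK hK', fun a => ?_⟩
  cases hca : c a with
  | true =>
    simp only [hca, cond_true]
    rw [H, answers_congr O q (fun z => bif c z.1 then q z else q' z) a a (by simp [hca])]
  | false =>
    simp only [hca, cond_false]
    rw [H', answers_congr O q' (fun z => bif c z.1 then q z else q' z) a a (by simp [hca])]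

lemma answers_take {α : Type} (O : Set (List Bool)) (q : α × List Bool → List Bool) (a : α)
    {i j : ℕ} (h : i ≤ j) : (answers O q a j).take i = answers O q a i := by
  induction j, h using Nat.le_induction with
  | base => rw [List.take_of_length_le (by rw [answers_length])]
  | succ j hj ih =>
    rw [answers, List.take_append_of_le_length (by rw [answers_length]; omega)]
    exact ih

/-- a sequence of bits, computed one after the other -/
def iterV {α : Type} (h : α × List Bool → Bool) (a : α) : ℕ → List Bool
  | 0 => []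
  | i + 1 => iterV h a i ++ [h (a, iterV h a i)]

lemma iterV_length {α : Type} (h : α × List Bool → Bool) (a : α) (i : ℕ) :
    (iterV h a i).length = i := by
  induction i with
  | zero => rfl
  | succ i ih => rw [iterV, List.length_append, ih, List.length_singleton]

/-- the bits that are computed from the answers in the blocks of length `B` of `w` -/
def dec {α : Type} (g : (α × List Bool) × List Bool → Bool) (K : α × List Bool → ℕ) (B : ℕ)
    (a : α) (w : List Bool) (i : ℕ) : List Bool :=
  (List.range i).foldl
    (fun v j => v ++ [g ((a, v), ((w.drop (j * B)).take B).take (K (a, v)))]) []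

lemma dec_succ {α : Type} (g : (α × List Bool) × List Bool → Bool) (K : α × List Bool → ℕ)
    (B : ℕ) (a : α) (w : List Bool) (i : ℕ) :
    dec g K B a w (i + 1) = dec g K B a w i ++ [g ((a, dec g K B a w i),
      ((w.drop (i * B)).take B).take (K (a, dec g K B a w i)))] := by
  unfold dec
  rw [List.range_succ, List.foldl_append, List.foldl_cons, List.foldl_nil]

lemma dec_append {α : Type} (g : (α × List Bool) × List Bool → Bool) (K : α × List Bool → ℕ)
    (B : ℕ) (a : α) (w w' : List Bool) (i : ℕ) (h : i * B ≤ w.length) :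
    dec g K B a (w ++ w') i = dec g K B a w i := by
  induction i with
  | zero => rfl
  | succ i ih =>
    rw [Nat.succ_mul] at h
    rw [dec_succ, dec_succ, ih (by omega), List.drop_append_of_le_length (by omega),
      List.take_append_of_le_length (by rw [List.length_drop]; omega)]

lemma PT_dec {ι : Type} [DEnc ι] {g : (α × List Bool) × List Bool → Bool}
    {K : α × List Bool → ℕ} (hg : PT g) (hK : PT K) {B i : ι → ℕ} {a : ι → α} {w : ι → List Bool}
    (hB : PT B) (ha : PT a) (hw : PT w) (hi : PT i) :
    PT (fun x => dec g K (B x) (a x) (w x) (i x)) := by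
  unfold dec
  refine PT.foldl_lin (g := fun z : ι × List Bool × ℕ => z.2.1 ++ [g ((a z.1, z.2.1),
    (((w z.1).drop (z.2.2 * B z.1)).take (B z.1)).take (K (a z.1, z.2.1)))]) (PT.range hi)
    (PT.const []) ?_ 4 ?_
  · have ha' : PT (fun z : ι × List Bool × ℕ => a z.1) := ha.comp PT.fst
    have hw' : PT (fun z : ι × List Bool × ℕ => w z.1) := hw.comp PT.fst
    have hB' : PT (fun z : ι × List Bool × ℕ => B z.1) := hB.comp PT.fst
    have hv : PT (fun z : ι × List Bool × ℕ => (a z.1, z.2.1)) := PT.pair ha' PT.snd.p1
    exact PT.append PT.snd.p1 (PT.cons (hg.comp (PT.pair hv (PT_take (hK.comp hv)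
      (PT_take hB' (PT.drop (PT.nmul PT.snd.p2 hB') hw'))))) (PT.const []))
  · intro x s b
    dsimp only
    have h1 := tsize_append s [g ((a x, s), (((w x).drop (b * B x)).take (B x)).take (K (a x, s)))]
    have h2 := tsize_bool_le (g ((a x, s), (((w x).drop (b * B x)).take (B x)).take (K (a x, s))))
    rw [tsize_cons, tsize_nil] at h1
    omega

/-- **Transitivity**: an adaptive computation with a subroutine that uses the oracle. -/
theorem OP.iter (hsz : HasSz α) {h : α × List Bool → Bool} (hh : OP O h) {n : α → ℕ} (hn : PT n)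
    {G : α × List Bool → Bool} (hG : PT G) : OP O (fun a => G (a, iterV h a (n a))) := by
  obtain ⟨q, g, K, hq, hg, hK, H⟩ := hh
  obtain ⟨sz, hsz, hsz'⟩ := hsz
  obtain ⟨P, hP⟩ := hK.size
  let B : α → ℕ := fun a => P.eval (sz a + 4 * n a + 2) + 1
  have hB : PT B := PT.nsucc (PT_peval P (PT.nadd (PT.nadd hsz (PT.nmul (PT.const 4) hn))
    (PT.const 2)))
  have hKB : ∀ a v, v.length ≤ n a → K (a, v) ≤ B a := by
    intro a v hv
    have h1 := hP (a, v)
    have h2 : tsize (a, v) ≤ sz a + 4 * n a + 2 := by
      rw [tsize_pair]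
      have := hsz' a
      have := tsize_bits_le v
      omega
    have h3 := evalMono P h2
    dsimp only at h1 h3
    rw [tsize_nat] at h1
    change K (a, v) ≤ P.eval (sz a + 4 * n a + 2) + 1
    omega
  let q' : α × List Bool → List Bool := fun z =>
    q ((z.1, dec g K (B z.1) z.1 z.2 (rtc 1 (B z.1) z.2.length)),
      z.2.drop (rtc 1 (B z.1) z.2.length * B z.1))
  have hB1 : PT (fun z : α × List Bool => B z.1) := hB.comp PT.fst
  have hr : PT (fun z : α × List Bool => rtc 1 (B z.1) z.2.length) :=
    PT_rtc 1 hB1 (PT.length PT.snd)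
  have hq' : PT q' := hq.comp (PT.pair (PT.pair PT.fst (PT_dec hg hK hB1 PT.fst PT.snd hr))
    (PT.drop (PT.nmul hr hB1) PT.snd))
  refine ⟨q', fun z => G (z.1, dec g K (B z.1) z.1 z.2 (n z.1)), fun a => n a * B a, hq',
    hG.comp (PT.pair PT.fst (PT_dec hg hK hB1 PT.fst PT.snd (hn.comp PT.fst))),
    PT.nmul hn hB, fun a => ?_⟩
  have key : ∀ i ≤ n a, dec g K (B a) a (answers O q' a (i * B a)) i = iterV h a i := by
    intro i
    induction i with
    | zero => intro _; rfl
    | succ i ih =>
      intro hi
      have ih' := ih (by omega)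
      have hstep : ∀ j ≤ B a, answers O q' a (i * B a + j) =
          answers O q' a (i * B a) ++ answers O q (a, iterV h a i) j := by
        intro j
        induction j with
        | zero => intro _; simp [answers]
        | succ j ihj =>
          intro hj
          have ihj' := ihj (by omega)
          have hl : (answers O q' a (i * B a + j)).length = i * B a + j := answers_length _ _ _ _
          have e1 : q' (a, answers O q' a (i * B a + j)) =
              q ((a, iterV h a i), answers O q (a, iterV h a i) j) := by
            change q ((a, dec g K (B a) a (answers O q' a (i * B a + j))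
              (rtc 1 (B a) (answers O q' a (i * B a + j)).length)),
              (answers O q' a (i * B a + j)).drop
                (rtc 1 (B a) (answers O q' a (i * B a + j)).length * B a)) = _
            rw [hl, rtc_div (by omega : j < B a), ihj',
              dec_append _ _ _ _ _ _ _ (by rw [answers_length]), ih']
            congr 2
            rw [List.drop_append_of_le_length (by rw [answers_length]),
              List.drop_of_length_le (by rw [answers_length]), List.nil_append]
          rw [← Nat.add_assoc, answers, e1, ihj', answers, List.append_assoc]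
      have h1 : (i + 1) * B a = i * B a + B a := Nat.succ_mul _ _
      rw [h1, dec_succ, hstep (B a) le_rfl, dec_append _ _ _ _ _ _ _ (by rw [answers_length]), ih',
        iterV]
      congr 2
      rw [H]
      congr 2
      rw [List.drop_append_of_le_length (by rw [answers_length]),
        List.drop_of_length_le (by rw [answers_length]), List.nil_append,
        answers_take O q _ le_rfl,
        answers_take O q _ (hKB a _ (by rw [iterV_length]; omega))]
  dsimp only
  rw [key (n a) le_rfl]

/-- one call of a subroutine -/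
lemma OP.post (hsz : HasSz α) {h : α → Bool} (hh : OP O h) {G : α × Bool → Bool} (hG : PT G) :
    OP O (fun a => G (a, h a)) := by
  have h1 := OP.iter hsz (h := fun z : α × List Bool => h z.1) (hh.comp PT.fst) (n := fun _ => 1)
    (PT.const 1) (G := fun z : α × List Bool => G (z.1, z.2.headD false))
    (hG.comp (PT.pair PT.fst (PT.headD PT.snd (PT.const false))))
  refine h1.congr fun a => ?_
  simp [iterV]

lemma OP.not (hsz : HasSz α) {h : α → Bool} (hh : OP O h) : OP O (fun a => !h a) :=
  OP.post hsz hh (G := fun z => !z.2) (PT.bnot PT.snd)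

lemma OP.and (hsz : HasSz α) {p h : α → Bool} (hp : PT p) (hh : OP O h) :
    OP O (fun a => p a && h a) :=
  OP.post hsz hh (G := fun z => p z.1 && z.2) (PT.band (hp.comp PT.fst) PT.snd)

lemma iterV_nat {α : Type} (h : α × ℕ → Bool) (a : α) (i : ℕ) :
    iterV (fun z : α × List Bool => h (z.1, z.2.length)) a i =
      (List.range i).map (fun t => h (a, t)) := by
  induction i with
  | zero => rfl
  | succ i ih => rw [iterV, ih, List.range_succ, List.map_append]; simp

/-- bounded search -/
lemma OP.any (hsz : HasSz α) {h : α × ℕ → Bool} (hh : OP O h) {n : α → ℕ} (hn : PT n) :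
    OP O (fun a => (List.range (n a)).any fun t => h (a, t)) := by
  have h1 := OP.iter hsz (h := fun z : α × List Bool => h (z.1, z.2.length))
    (hh.comp (PT.pair PT.fst (PT.length PT.snd))) hn (G := fun z : α × List Bool => z.2.any fun b => b)
    (PT.any (p := fun y : (α × List Bool) × Bool => y.2) PT.snd PT.snd)
  refine h1.congr fun a => ?_
  dsimp only
  rw [iterV_nat, List.any_map]
  rfl

end

/-! ### polynomial-time machines with an oracle -/

lemma PT_of_TM2 {α : Type} [DEnc α] {ea : α → List Bool} (he : PT ea) {f : α → List Bool}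
    (h : Nonempty (TM2ComputableInPolyTime ea (fun w => w) f)) : PT f := by
  obtain ⟨F, hF, h1⟩ := exists_PT h
  exact (hF.comp he).congr h1

lemma PT_of_TM2' {α : Type} [DEnc α] {ea : α → List Bool} (he : PT ea) {f : α → Bool}
    (h : Nonempty (TM2ComputableInPolyTime ea encodeBool f)) : PT f := by
  obtain ⟨F, hF, h1⟩ := exists_PT h
  exact (PT.headD (hF.comp he) (PT.const false)).congr fun a => by rw [h1]; rfl

lemma PT_encPair' : PT (encPair) := (PT_encPair PT.fst PT.snd).congr fun _ => rfl

lemma PT_encz : PT (fun z : (List Bool × List Bool) × List Bool => encPair (encPair z.1, z.2)) :=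
  PT_encPair (PT_encPair'.comp PT.fst) PT.snd

lemma OP.of_polyTime {O : Set (List Bool)} {R : List Bool × List Bool → Prop}
    (h : PolyTime encPair O R) : ∃ r : List Bool × List Bool → Bool, OP O r ∧ ∀ p, R p ↔ r p = true := by
  obtain ⟨q, d, P, hq, hd, hR⟩ := h
  refine ⟨fun p => d (p, answers O q p (P.eval (encPair p).length)), ?_, hR⟩
  exact ⟨q, d, fun p => P.eval (encPair p).length, PT_of_TM2 PT_encz hq, PT_of_TM2' PT_encz hd,
    PT_peval P (PT.length PT_encPair'), fun _ => rfl⟩

lemma OP.polyTime {O : Set (List Bool)} {r : List Bool × List Bool → Bool} (h : OP O r) :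
    PolyTime encPair O (fun p => r p = true) := by
  obtain ⟨q, g, K, hq, hg, hK, H⟩ := h
  obtain ⟨P, hP⟩ := hK.size
  have hu : PT (fun w : List Bool => (unpair (unpair w).1, (unpair w).2)) :=
    PT.pair (PT_unpair.comp PT_unpair.p1) PT_unpair.p2
  have hb : ∀ p : List Bool × List Bool, K p ≤ P.eval (4 * (encPair p).length + 3) := by
    intro p
    have h1 := hP p
    dsimp only at h1
    rw [tsize_nat] at h1
    have h2 : tsize p ≤ 4 * (encPair p).length + 3 := by
      obtain ⟨x, y⟩ := p
      rw [tsize_pair, length_encPair]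
      have := tsize_bits_le x
      have := tsize_bits_le y
      omega
    have h3 := evalMono P h2
    dsimp only at h3
    omega
  refine ⟨q, fun z => g (z.1, z.2.take (K z.1)), P.comp (4 * Polynomial.X + 3), ?_, ?_, ?_⟩
  · refine PT.toTM2 (F := fun w => q (unpair (unpair w).1, (unpair w).2)) (hq.comp hu) ?_
    rintro ⟨p, v⟩
    simp only [unpair_enc]
  · refine PT.decider (F := fun w => g (unpair (unpair w).1,
      ((unpair w).2).take (K (unpair (unpair w).1)))) ?_ ?_
    · exact hg.comp (PT.pair hu.p1 (PT_take (hK.comp hu.p1) hu.p2))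
    · rintro ⟨p, v⟩
      simp only [unpair_enc]
  · intro p
    dsimp only
    have h4 : Polynomial.eval (encPair p).length (P.comp (4 * Polynomial.X + 3)) =
        P.eval (4 * (encPair p).length + 3) := by
      rw [Polynomial.eval_comp]
      simp
    rw [h4, answers_take O q p (hb p), H]

end Pool.Agent.MP_92db0f_lc_thr
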