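import Pool.Agent.MP_92db0f_lc_thr.OP

/-!
A complete language for `NE` relative to an oracle.
-/

set_option autoImplicit false

namespace Pool.Agent.MP_92db0f_lc_thr

open Turing Computability Lib.helper60 MP_92db0f_lc_alg
open MP_92db0f_lc hiding answers InNEXP

/-- the next query of the universal machine on the instance `z.1.1` with the certificate `z.1.2` -/
def uq (z : (List Bool × List Bool) × List Bool) : List Bool :=
  if thalt (parse (unpair (unpair z.1.1).1).1) (trun (parse (unpair (unpair z.1.1).1).1)
    (encPair (encPair ((unpair z.1.1).2, (unpair z.1.2).1), z.2))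
      (unpair (unpair z.1.2).2).1.length) = true
  then tout (parse (unpair (unpair z.1.1).1).1) (trun (parse (unpair (unpair z.1.1).1).1)
    (encPair (encPair ((unpair z.1.1).2, (unpair z.1.2).1), z.2))
      (unpair (unpair z.1.2).2).1.length)
  else []

/-- the decision of the universal machine -/
def ud (z : (List Bool × List Bool) × List Bool) : Bool :=
  ((List.range z.2.length).all fun i => thalt (parse (unpair (unpair z.1.1).1).1)
    (trun (parse (unpair (unpair z.1.1).1).1)
      (encPair (encPair ((unpair z.1.1).2, (unpair z.1.2).1), z.2.take i))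
        (unpair (unpair z.1.2).2).1.length)) &&
  (thalt (parse (unpair (unpair z.1.1).1).2) (trun (parse (unpair (unpair z.1.1).1).2)
    (encPair (encPair ((unpair z.1.1).2, (unpair z.1.2).1), z.2))
      (unpair (unpair z.1.2).2).1.length) &&
  (tout (parse (unpair (unpair z.1.1).1).2) (trun (parse (unpair (unpair z.1.1).1).2)
    (encPair (encPair ((unpair z.1.1).2, (unpair z.1.2).1), z.2))
      (unpair (unpair z.1.2).2).1.length)).headD false)

/-- the number of queries of the universal machine -/
def uK (p : List Bool × List Bool) : ℕ := (unpair (unpair p.2).2).2.length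

/-- the universal machine accepts -/
noncomputable def uR (O : Set (List Bool)) (p : List Bool × List Bool) : Bool :=
  ud (p, answers O uq p (uK p))

/-- the complete language -/
def KL (O : Set (List Bool)) : Set (List Bool) :=
  {z | ∃ c : List Bool, c.length ≤ 2 ^ (z.length + 1) ∧ uR O (z, c) = true}

lemma PT_uq : PT uq := by
  unfold uq
  have u1 : PT (fun z : (List Bool × List Bool) × List Bool => unpair z.1.1) :=
    PT_unpair.comp PT.fst.p1
  have u2 : PT (fun z : (List Bool × List Bool) × List Bool => unpair z.1.2) :=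
    PT_unpair.comp PT.fst.p2
  have hφ : PT (fun z : (List Bool × List Bool) × List Bool =>
      parse (unpair (unpair z.1.1).1).1) := PT_parse.comp (PT_unpair.comp u1.p1).p1
  have ht : PT (fun z : (List Bool × List Bool) × List Bool =>
      (unpair (unpair z.1.2).2).1.length) := PT.length (PT_unpair.comp u2.p2).p1
  have hr := PT_trun hφ (PT_encPair (PT_encPair u1.p2 u2.p1) PT.snd) ht
  exact PT.ite ((PT_thalt hφ hr).congr fun z => by simp) (PT_tout hφ hr) (PT.const [])

lemma PT_ud : PT ud := by
  unfold ud
  have u1 : PT (fun z : (List Bool × List Bool) × List Bool => unpair z.1.1) :=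
    PT_unpair.comp PT.fst.p1
  have u2 : PT (fun z : (List Bool × List Bool) × List Bool => unpair z.1.2) :=
    PT_unpair.comp PT.fst.p2
  have hφ : PT (fun z : (List Bool × List Bool) × List Bool =>
      parse (unpair (unpair z.1.1).1).1) := PT_parse.comp (PT_unpair.comp u1.p1).p1
  have hφ' : PT (fun z : (List Bool × List Bool) × List Bool =>
      parse (unpair (unpair z.1.1).1).2) := PT_parse.comp (PT_unpair.comp u1.p1).p2
  have ht : PT (fun z : (List Bool × List Bool) × List Bool =>
      (unpair (unpair z.1.2).2).1.length) := PT.length (PT_unpair.comp u2.p2).p1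
  have hr := PT_trun hφ' (PT_encPair (PT_encPair u1.p2 u2.p1) PT.snd) ht
  refine PT.band ?_ (PT.band (PT_thalt hφ' hr) (PT.headD (PT_tout hφ' hr) (PT.const false)))
  refine PT.all (p := fun y : ((List Bool × List Bool) × List Bool) × ℕ =>
    thalt (parse (unpair (unpair y.1.1.1).1).1) (trun (parse (unpair (unpair y.1.1.1).1).1)
      (encPair (encPair ((unpair y.1.1.1).2, (unpair y.1.1.2).1), y.1.2.take y.2))
        (unpair (unpair y.1.1.2).2).1.length)) (PT.range (PT.length PT.snd)) ?_
  have hφ2 := hφ.comp (PT.fst (α := (List Bool × List Bool) × List Bool) (β := ℕ))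
  have u12 := u1.comp (PT.fst (α := (List Bool × List Bool) × List Bool) (β := ℕ))
  have u22 := u2.comp (PT.fst (α := (List Bool × List Bool) × List Bool) (β := ℕ))
  exact PT_thalt hφ2 (PT_trun hφ2 (PT_encPair (PT_encPair u12.p2 u22.p1)
    (PT_take PT.snd PT.fst.p2)) (ht.comp PT.fst))

lemma PT_uK : PT uK := PT.length (PT_unpair.comp (PT_unpair.comp PT.snd).p2).p2

theorem InNE_KL (O : Set (List Bool)) : InNE O (KL O) := by
  refine ⟨1, fun p => uR O p = true,
    OP.polyTime ⟨uq, ud, uK, PT_uq, PT_ud, PT_uK, fun _ => rfl⟩, fun z => ?_⟩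
  change (∃ c : List Bool, c.length ≤ 2 ^ (z.length + 1) ∧ uR O (z, c) = true) ↔ _
  rw [one_mul]

lemma encPair_append (a b c : List Bool) : encPair (a, b) ++ c = encPair (a, b ++ c) := by
  unfold encPair
  simp [List.append_assoc]

/-- a polynomial of an exponentially large number -/
lemma eval_two_pow_le (Q : Polynomial ℕ) (E : ℕ) :
    Q.eval (2 ^ E) ≤ 2 ^ (Q.eval 1 + E * Q.natDegree) := by
  have h1 := alg_eval_mul_le Q 1 (2 ^ E) Nat.one_le_two_pow
  rw [one_mul] at h1
  refine h1.trans ?_
  rw [pow_add, pow_mul]
  exact Nat.mul_le_mul_right _ Nat.lt_two_pow_self.le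

/-- **Completeness.** -/
theorem KL_complete {O L : Set (List Bool)} (h : InNE O L) : ∃ (u : List Bool) (κ : ℕ),
    ∀ x : List Bool, x ∈ L ↔ encPair (u ++ List.replicate (κ * x.length) true, x) ∈ KL O := by
  obtain ⟨k, R, ⟨q, d, P, ⟨hq⟩, hd, hR⟩, hL⟩ := h
  have hdPT := PT_of_TM2' PT_encz hd
  let d' : (List Bool × List Bool) × List Bool → Bool := fun z =>
    decide (z.2.length = P.eval (encPair z.1).length) &&
      (decide (z.1.2.length - 1 ≤ p2 z.1.2.length (k * z.1.1.length + k)) && d z)
  have hd'PT : PT d' := by
    refine PT.band (PT.neq (PT.length PT.snd) (PT_peval P (PT.length (PT_encPair'.comp PT.fst))))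
      (PT.band ?_ hdPT)
    exact PT.nle (PT.nsub (PT.length PT.fst.p2) (PT.const 1)) (PT_p2 (PT.length PT.fst.p2)
      (PT.nadd (PT.nmul (PT.const k) (PT.length PT.fst.p1)) (PT.const k)))
  have hd'iff : ∀ x y v, d' ((x, y), v) = true ↔ v.length = P.eval (encPair (x, y)).length ∧
      y.length ≤ 2 ^ (k * x.length + k) ∧ d ((x, y), v) = true := by
    intro x y v
    simp only [d', Bool.and_eq_true, decide_eq_true_eq]
    rw [p2_eq]
    have h1 : 1 ≤ 2 ^ (k * x.length + k) := Nat.one_le_two_pow
    refine and_congr_right fun _ => and_congr_left fun _ => ?_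
    omega
  have hu : PT (fun w : List Bool => (unpair (unpair w).1, (unpair w).2)) :=
    PT.pair (PT_unpair.comp PT_unpair.p1) PT_unpair.p2
  obtain ⟨hd'⟩ : Nonempty (TM2ComputableInPolyTime
      (fun z : (List Bool × List Bool) × List Bool => encPair (encPair z.1, z.2)) encodeBool d') :=
    PT.decider (F := fun w => d' (unpair (unpair w).1, (unpair w).2)) (hd'PT.comp hu)
      (by rintro ⟨p, v⟩; simp only [unpair_enc])
  obtain ⟨φ, T, hs⟩ := exists_table hq
  obtain ⟨φ', T', hs'⟩ := exists_table hd'
  obtain ⟨S, hS⟩ : ∃ S : Polynomial ℕ, ∀ n, S.eval n =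
      T.eval (2 * n + 2 + P.eval n) + T'.eval (2 * n + 2 + P.eval n) :=
    ⟨(T + T').comp (2 * Polynomial.X + 2 + P), fun n => by simp [Polynomial.eval_comp]⟩
  obtain ⟨Q, hQ⟩ : ∃ Q : Polynomial ℕ, ∀ n, Q.eval n = 2 * n + 4 + 2 * S.eval n + P.eval n :=
    ⟨2 * Polynomial.X + 4 + 2 * S + P, fun n => by simp⟩
  obtain ⟨s₀, hs₀⟩ : ∃ s₀, s₀ = Q.eval 1 + (k + 3) * Q.natDegree := ⟨_, rfl⟩
  obtain ⟨u, hu0⟩ : ∃ u, u = encPair (encCNF φ, encCNF φ' ++ List.replicate s₀ true) := ⟨_, rfl⟩
  obtain ⟨κ, hκ⟩ : ∃ κ, κ = (k + 1) * Q.natDegree := ⟨_, rfl⟩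
  refine ⟨u, κ, fun x => ?_⟩
  obtain ⟨z, hz⟩ : ∃ z, z = encPair (u ++ List.replicate (κ * x.length) true, x) := ⟨_, rfl⟩
  rw [← hz]
  have hu' : u ++ List.replicate (κ * x.length) true =
      encPair (encCNF φ, encCNF φ' ++ List.replicate (s₀ + κ * x.length) true) := by
    rw [hu0, encPair_append, List.append_assoc, ← List.replicate_add]
  have e1 : parse (unpair (unpair z).1).1 = φ := by
    rw [hz, hu', unpair_enc, unpair_enc]
    exact parse_enc φ
  have e2 : parse (unpair (unpair z).1).2 = φ' := by
    rw [hz, hu', unpair_enc, unpair_enc]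
    exact parse_append_true φ' _
  have e3 : (unpair z).2 = x := by rw [hz, unpair_enc]
  rw [hL x]
  constructor
  · rintro ⟨y, hy, hRy⟩
    rw [hR] at hRy
    obtain ⟨n, hn⟩ : ∃ n, n = (encPair (x, y)).length := ⟨_, rfl⟩
    rw [← hn] at hRy
    have hnl : n = 2 * x.length + 2 + y.length := by rw [hn, length_encPair]
    obtain ⟨t, ht0⟩ : ∃ t : List Bool, t = List.replicate (S.eval n) true := ⟨_, rfl⟩
    have htl : t.length = S.eval n := by rw [ht0, List.length_replicate]
    obtain ⟨p, hp0⟩ : ∃ p : List Bool, p = List.replicate (P.eval n) true := ⟨_, rfl⟩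
    have hpl : p.length = P.eval n := by rw [hp0, List.length_replicate]
    obtain ⟨c, hc0⟩ : ∃ c, c = encPair (y, encPair (t, p)) := ⟨_, rfl⟩
    have c1 : (unpair c).1 = y := by rw [hc0, unpair_enc]
    have c2 : (unpair (unpair c).2).1 = t := by rw [hc0, unpair_enc, unpair_enc]
    have c3 : (unpair (unpair c).2).2 = p := by rw [hc0, unpair_enc, unpair_enc]
    have ht : ∀ v : List Bool, v.length ≤ P.eval n →
        T.eval (encPair (encPair (x, y), v)).length ≤ t.length ∧
        T'.eval (encPair (encPair (x, y), v)).length ≤ t.length := by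
      intro v hv
      rw [length_encPair, ← hn, htl]
      have h1 : (2 * n + 2 + v.length) ≤ 2 * n + 2 + P.eval n := by omega
      have h2 := evalMono T h1
      have h3 := evalMono T' h1
      have h4 := hS n
      dsimp only at h2 h3
      exact ⟨by omega, by omega⟩
    have hans : ∀ i ≤ P.eval n, answers O uq (z, c) i = answers O q (x, y) i := by
      intro i
      induction i with
      | zero => intro _; rfl
      | succ i ih =>
        intro hi
        have ih' := ih (by omega)
        rw [answers, answers, ih']
        congr 2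
        have h5 : uq ((z, c), answers O q (x, y) i) = q ((x, y), answers O q (x, y) i) := by
          unfold uq
          dsimp only
          rw [e1, e3, c1, c2]
          have h6 := (hs ((x, y), answers O q (x, y) i) t.length).1
            (ht _ (by rw [answers_length]; omega)).1
          have h7 := (hs ((x, y), answers O q (x, y) i) t.length).2 h6
          dsimp only at h6 h7
          rw [if_pos h6, h7]
        rw [h5]
    refine ⟨c, ?_, ?_⟩
    · have h1 : c.length ≤ Q.eval n := by
        rw [hc0, length_encPair, length_encPair, hQ, htl, hpl]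
        omega
      have h2 : n ≤ 2 ^ ((k + 1) * x.length + (k + 3)) := by
        have h3 : x.length + 1 ≤ 2 ^ x.length := Nat.lt_two_pow_self
        have h4 : 2 ^ x.length ≤ 2 ^ ((k + 1) * x.length + k) :=
          Nat.pow_le_pow_right (by norm_num) (by nlinarith)
        have h5 : 2 ^ (k * x.length + k) ≤ 2 ^ ((k + 1) * x.length + k) :=
          Nat.pow_le_pow_right (by norm_num) (by nlinarith)
        have h6 : 2 ^ ((k + 1) * x.length + (k + 3)) = 8 * 2 ^ ((k + 1) * x.length + k) := by
          rw [← Nat.add_assoc, pow_add]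
          ring
        omega
      refine h1.trans ((evalMono Q h2).trans ((eval_two_pow_le Q _).trans ?_))
      apply Nat.pow_le_pow_right (by norm_num)
      have h3 : z.length = 2 * (u ++ List.replicate (κ * x.length) true).length + 2 + x.length := by
        rw [hz, length_encPair]
      have h4 : u.length = 2 * (encCNF φ).length + 2 + ((encCNF φ').length + s₀) := by
        rw [hu0, length_encPair, List.length_append, List.length_replicate]
      rw [List.length_append, List.length_replicate] at h3
      have h5 : ((k + 1) * x.length + (k + 3)) * Q.natDegree =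
          κ * x.length + (k + 3) * Q.natDegree := by
        rw [hκ]
        ring
      rw [h5]
      omega
    · have hK : uK (z, c) = P.eval n := by
        unfold uK
        dsimp only
        rw [c3, hpl]
      unfold uR
      rw [hK, hans _ le_rfl]
      unfold ud
      dsimp only
      rw [e1, e2, e3, c1, c2, Bool.and_eq_true, Bool.and_eq_true, List.all_eq_true]
      have h6 := (hs' ((x, y), answers O q (x, y) (P.eval n)) t.length).1
        (ht _ (by rw [answers_length])).2
      have h7 := (hs' ((x, y), answers O q (x, y) (P.eval n)) t.length).2 h6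
      dsimp only at h6 h7
      refine ⟨?_, h6, ?_⟩
      · intro i hi
        rw [List.mem_range, answers_length] at hi
        rw [answers_take O q _ hi.le]
        exact (hs ((x, y), answers O q (x, y) i) t.length).1
          (ht _ (by rw [answers_length]; omega)).1
      · rw [h7]
        have h8 : d' ((x, y), answers O q (x, y) (P.eval n)) = true :=
          (hd'iff _ _ _).2 ⟨by rw [answers_length, hn], hy, hRy⟩
        rw [h8]
        rfl
  · rintro ⟨c, -, hc⟩
    obtain ⟨y, hy⟩ : ∃ y, y = (unpair c).1 := ⟨_, rfl⟩
    obtain ⟨t, ht⟩ : ∃ t, t = (unpair (unpair c).2).1 := ⟨_, rfl⟩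
    have hK : (answers O uq (z, c) (uK (z, c))).length = uK (z, c) := answers_length _ _ _ _
    unfold uR ud at hc
    dsimp only at hc
    rw [e1, e2, e3, ← hy, ← ht, Bool.and_eq_true, Bool.and_eq_true, List.all_eq_true, hK] at hc
    obtain ⟨h1, h2, h3⟩ := hc
    have hans : ∀ i ≤ uK (z, c), answers O uq (z, c) i = answers O q (x, y) i := by
      intro i
      induction i with
      | zero => intro _; rfl
      | succ i ih =>
        intro hi
        have ih' := ih (by omega)
        rw [answers, answers, ih']
        congr 2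
        have h5 : uq ((z, c), answers O q (x, y) i) = q ((x, y), answers O q (x, y) i) := by
          unfold uq
          dsimp only
          rw [e1, e3, ← hy, ← ht]
          have h6 := h1 i (List.mem_range.2 (by omega))
          rw [answers_take O uq _ (by omega : i ≤ uK (z, c)), ih'] at h6
          have h7 := (hs ((x, y), answers O q (x, y) i) t.length).2 h6
          dsimp only at h7
          rw [if_pos h6, h7]
        rw [h5]
    rw [hans _ le_rfl] at h2 h3
    have h7 := (hs' ((x, y), answers O q (x, y) (uK (z, c))) t.length).2 h2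
    dsimp only at h7
    rw [h7] at h3
    have h8 : d' ((x, y), answers O q (x, y) (uK (z, c))) = true := h3
    obtain ⟨h9, h10, h11⟩ := (hd'iff _ _ _).1 h8
    rw [answers_length] at h9
    refine ⟨y, h10, ?_⟩
    rw [hR, ← h9]
    exact h11

end Pool.Agent.MP_92db0f_lc_thr
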