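import Pool.Agent.MP_92db0f_lc_thr.Limit
import Pool.Agent.MP_92db0f_lc_thr.KLO

/-!
The growth functions of the construction, computed in polynomial time.
-/

set_option autoImplicit false

namespace Pool.Agent.MP_92db0f_lc_thr

open Turing Computability Lib.helper60 MP_92db0f_lc_alg
open MP_92db0f_lc hiding answers InNEXP

/-! ### counting -/

/-- the length of the initial segment on which `P` is true -/
def cnt (P : ℕ → Bool) (n : ℕ) : ℕ :=
  (List.range n).foldl (fun r _ => bif P r then r + 1 else r) 0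

lemma cnt_aux (P : ℕ → Bool) (n : ℕ) :
    (∀ i < cnt P n, P i = true) ∧ (cnt P n = n ∨ P (cnt P n) = false) := by
  induction n with
  | zero => exact ⟨fun i hi => absurd hi (Nat.not_lt_zero i), Or.inl rfl⟩
  | succ n ih =>
    have h : cnt P (n + 1) = bif P (cnt P n) then cnt P n + 1 else cnt P n := by
      unfold cnt
      rw [List.range_succ, List.foldl_append, List.foldl_cons, List.foldl_nil]
    obtain ⟨h1, h2⟩ := ih
    rw [h]
    cases hP : P (cnt P n) with
    | false =>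
      rw [cond_false]
      exact ⟨h1, Or.inr hP⟩
    | true =>
      rw [cond_true]
      have h3 : cnt P n = n := by
        rcases h2 with h2 | h2
        · exact h2
        · rw [hP] at h2
          exact absurd h2 (by decide)
      refine ⟨fun i hi => ?_, Or.inl (by rw [h3])⟩
      rcases Nat.lt_succ_iff_lt_or_eq.1 hi with h4 | h4
      · exact h1 i h4
      · rw [h4]
        exact hP

lemma lt_cnt {P : ℕ → Bool} {n : ℕ} (hP : ∀ i, P (i + 1) = true → P i = true)
    (hn : P n = false) {i : ℕ} : i < cnt P n ↔ P i = true := by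
  have hdown : ∀ j i, P (i + j) = true → P i = true := by
    intro j
    induction j with
    | zero => intro i h; exact h
    | succ j ih => intro i h; exact ih i (hP _ h)
  obtain ⟨h1, h2⟩ := cnt_aux P n
  constructor
  · exact h1 i
  · intro h
    by_contra hle
    obtain ⟨j, hj⟩ := Nat.exists_eq_add_of_le (not_lt.1 hle)
    rw [hj] at h
    have h3 := hdown _ _ h
    rcases h2 with h2 | h2
    · rw [h2, hn] at h3
      exact absurd h3 (by decide)
    · rw [h2] at h3
      exact absurd h3 (by decide)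

lemma PT_cnt {α : Type} [DEnc α] {P : α × ℕ → Bool} {n : α → ℕ} (hP : PT P) (hn : PT n) :
    PT (fun z => cnt (fun t => P (z, t)) (n z)) := by
  unfold cnt
  refine PT.foldl_lin (g := fun z : α × ℕ × ℕ => bif P (z.1, z.2.1) then z.2.1 + 1 else z.2.1)
    (PT.range hn) (PT.const 0) ?_ 2 ?_
  · exact PT.cond (hP.comp (PT.pair PT.fst PT.snd.p1)) (PT.nsucc PT.snd.p1) PT.snd.p1
  · intro a s b
    dsimp only
    cases P (a, s)
    · rw [cond_false]
      omega
    · rw [cond_true, tsize_nat, tsize_nat]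
      omega

/-! ### the growth functions -/

/-- the greatest level that is not injured by the actions of the class `t` -/
def pcf (a b t : ℕ) : ℕ := rtc b 1 (4 ^ b * 2 ^ (t * a))

/-- the number of the classes whose actions injure the level `m` -/
def τf (a b m : ℕ) : ℕ := cnt (fun t => decide (4 ^ b * 2 ^ (t * a) < m ^ b)) m

/-- the number of the digits of the counters of the classes below `t` -/
def Off (t : ℕ) : ℕ := 10 * (2 ^ t - 1)

/-- the class of the digit `i` -/
def lg (i : ℕ) : ℕ := cnt (fun t => decide (Off (t + 1) ≤ i)) i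

section

variable {a b : ℕ}

lemma lt_τf (_hb : 1 ≤ b) (hab : b ≤ a) {t m : ℕ} :
    t < τf a b m ↔ 4 ^ b * 2 ^ (t * a) < m ^ b := by
  unfold τf
  rw [lt_cnt, decide_eq_true_eq]
  · intro i h
    rw [decide_eq_true_eq] at h ⊢
    refine lt_of_le_of_lt (Nat.mul_le_mul_left _ (Nat.pow_le_pow_right (by norm_num) ?_)) h
    exact Nat.mul_le_mul_right _ (by omega)
  · rw [decide_eq_false_iff_not, not_lt]
    calc m ^ b ≤ (2 ^ m) ^ b := Nat.pow_le_pow_left Nat.lt_two_pow_self.le b
      _ = 2 ^ (m * b) := by rw [pow_mul]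
      _ ≤ 2 ^ (m * a) := Nat.pow_le_pow_right (by norm_num) (Nat.mul_le_mul_left _ hab)
      _ ≤ 4 ^ b * 2 ^ (m * a) := Nat.le_mul_of_pos_left _ (by positivity)

lemma pcf_pow_le (hb : 1 ≤ b) (t : ℕ) : pcf a b t ^ b ≤ 4 ^ b * 2 ^ (t * a) := by
  have h := (le_rtc hb (le_refl 1) (x := 4 ^ b * 2 ^ (t * a))).1 (le_refl (pcf a b t))
  rwa [one_mul] at h

lemma τf_iff (hb : 1 ≤ b) (hab : b ≤ a) (t m : ℕ) : t < τf a b m ↔ pcf a b t < m := by
  rw [lt_τf hb hab]
  unfold pcf
  rw [← not_le, ← not_le, le_rtc hb (le_refl 1), one_mul]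

lemma pcf_mono (hb : 1 ≤ b) (i j : ℕ) (h : i ≤ j) : pcf a b i ≤ pcf a b j := by
  unfold pcf
  rw [le_rtc hb (le_refl 1), one_mul]
  refine (pcf_pow_le hb i).trans (Nat.mul_le_mul_left _ ?_)
  exact Nat.pow_le_pow_right (by norm_num) (Nat.mul_le_mul_right _ h)

lemma cls_bounds (m : ℕ) : 2 ^ cls m ≤ m + 1 ∧ m + 1 < 2 ^ (cls m + 1) := cls_eq.1 rfl

lemma le_pcf (hb : 1 ≤ b) (hab : b ≤ a) (m : ℕ) : m ≤ pcf a b (cls m) := by
  unfold pcf
  rw [le_rtc hb (le_refl 1), one_mul]
  have h1 := (cls_bounds m).2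
  rw [pow_succ] at h1
  calc m ^ b ≤ (4 * 2 ^ cls m) ^ b := Nat.pow_le_pow_left (by omega) b
    _ = 4 ^ b * 2 ^ (cls m * b) := by rw [mul_pow, ← pow_mul]
    _ ≤ 4 ^ b * 2 ^ (cls m * a) := Nat.mul_le_mul_left _
        (Nat.pow_le_pow_right (by norm_num) (Nat.mul_le_mul_left _ hab))

lemma two_pow_lt (hb : 1 ≤ b) (hab : b ≤ a) {t m : ℕ} (h : t < τf a b m) : 4 * 2 ^ t < m := by
  rw [lt_τf hb hab] at h
  have h1 : (4 * 2 ^ t) ^ b < m ^ b := by
    refine lt_of_le_of_lt ?_ h
    rw [mul_pow, ← pow_mul]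
    exact Nat.mul_le_mul_left _ (Nat.pow_le_pow_right (by norm_num) (Nat.mul_le_mul_left _ hab))
  exact (Nat.pow_lt_pow_iff_left (by omega)).1 h1

lemma two_pow_τf (hb : 1 ≤ b) (hab : b ≤ a) {m : ℕ} (hm : 1 ≤ m) : 2 ^ τf a b m ≤ m := by
  rcases Nat.eq_zero_or_pos (τf a b m) with h | h
  · rw [h]
    simpa using hm
  · have h1 := two_pow_lt hb hab (t := τf a b m - 1) (m := m) (by omega)
    obtain ⟨k, hk⟩ : ∃ k, τf a b m = k + 1 := ⟨τf a b m - 1, by omega⟩
    rw [hk, Nat.add_sub_cancel] at h1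
    rw [hk, pow_succ]
    omega

lemma two_pow_τf_pow (hb : 1 ≤ b) (hab : b ≤ a) {m : ℕ} (hm : 1 ≤ m) :
    (2 ^ τf a b m) ^ a ≤ 2 ^ a * m ^ b := by
  rcases Nat.eq_zero_or_pos (τf a b m) with h | h
  · rw [h, pow_zero, one_pow]
    have h1 : 0 < 2 ^ a * m ^ b := by positivity
    exact h1
  · obtain ⟨k, hk⟩ : ∃ k, τf a b m = k + 1 := ⟨τf a b m - 1, by omega⟩
    have h1 := (lt_τf hb hab (t := k) (m := m)).1 (by omega)
    have h2 : 2 ^ (k * a) ≤ 4 ^ b * 2 ^ (k * a) := Nat.le_mul_of_pos_left _ (by positivity)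
    rw [hk, ← pow_mul, Nat.add_mul, one_mul, pow_add, Nat.mul_comm]
    exact Nat.mul_le_mul_left _ (by omega)

lemma Off_succ (t : ℕ) : Off (t + 1) = Off t + Dg t := by
  unfold Off Dg
  rw [pow_succ]
  have : 1 ≤ 2 ^ t := Nat.one_le_two_pow
  omega

lemma Off_mono {t t' : ℕ} (h : t ≤ t') : Off t ≤ Off t' := by
  unfold Off
  have h1 : 2 ^ t ≤ 2 ^ t' := Nat.pow_le_pow_right (by norm_num) h
  omega

lemma length_hs_Dg (h : ℕ → ℕ) (n : ℕ) : (hs Dg h n).length = Off n := by
  rw [length_hs]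
  induction n with
  | zero => rfl
  | succ n ih => rw [Finset.sum_range_succ, ih, Off_succ]

lemma lt_lg {t i : ℕ} : t < lg i ↔ Off (t + 1) ≤ i := by
  unfold lg
  rw [lt_cnt, decide_eq_true_eq]
  · intro j h
    rw [decide_eq_true_eq] at h ⊢
    exact (Off_mono (by omega)).trans h
  · rw [decide_eq_false_iff_not, not_le]
    unfold Off
    have h1 : i + 1 < 2 ^ (i + 1) := Nat.lt_two_pow_self
    omega

lemma lg_eq {t j : ℕ} (hj : j < Dg t) : lg (Off t + j) = t := by
  apply le_antisymm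
  · by_contra h
    have h1 := lt_lg.1 (not_le.1 h)
    rw [Off_succ] at h1
    omega
  · by_contra h
    obtain ⟨k, rfl⟩ : ∃ k, t = k + 1 := ⟨t - 1, by omega⟩
    have h1 : ¬ k < lg (Off (k + 1) + j) := by omega
    rw [lt_lg] at h1
    omega

/-- the digit `i` belongs to the counter of the class `lg i` -/
lemma lg_spec (i : ℕ) : Off (lg i) ≤ i ∧ i < Off (lg i + 1) := by
  constructor
  · rcases Nat.eq_zero_or_pos (lg i) with h | h
    · rw [h]
      exact Nat.zero_le _
    · obtain ⟨k, hk⟩ : ∃ k, lg i = k + 1 := ⟨lg i - 1, by omega⟩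
      rw [hk]
      exact lt_lg.1 (by omega)
  · by_contra h
    have h1 := lt_lg.2 (not_lt.1 h)
    omega

lemma sb_take (D c : ℕ) {i j : ℕ} (h : i ≤ j) : (sb D c j).take i = sb D c i := by
  induction j, h using Nat.le_induction with
  | base => rw [List.take_of_length_le (by rw [length_sb])]
  | succ j hj ih =>
    rw [sb, List.take_append_of_le_length (by rw [length_sb]; omega)]
    exact ih

lemma hs_take (h : ℕ → ℕ) {t n j : ℕ} (ht : t < n) (hj : j ≤ Dg t) :
    (hs Dg h n).take (Off t + j) = hs Dg h t ++ sb (Dg t) (h t) j := by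
  induction n, (Nat.succ_le_of_lt ht) using Nat.le_induction with
  | base =>
    rw [hs, List.take_append, length_hs_Dg, Nat.add_sub_cancel_left, sb_take _ _ hj,
      List.take_of_length_le (by rw [length_hs_Dg]; omega)]
  | succ n hn ih =>
    have h1 : Off t + j ≤ Off n := by
      have h2 := Off_mono (t := t + 1) (t' := n) hn
      rw [Off_succ] at h2
      omega
    rw [hs, List.take_append_of_le_length (by rw [length_hs_Dg]; omega)]
    exact ih hn

/-! ### polynomial time -/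

lemma PT_cls {α : Type} [DEnc α] {m : α → ℕ} (hm : PT m) : PT (fun x => cls (m x)) := by
  have h := PT_cnt (P := fun z : α × ℕ => decide (p2 (m z.1 + 1) (z.2 + 1) + 1 ≤ m z.1 + 1))
    (n := m) (PT.nle (PT.nsucc (PT_p2 (PT.nsucc (hm.comp PT.fst)) (PT.nsucc PT.snd)))
      (PT.nsucc (hm.comp PT.fst))) hm
  refine h.congr fun x => ?_
  have h1 : ∀ t, (decide (p2 (m x + 1) (t + 1) + 1 ≤ m x + 1)) =
      decide (2 ^ (t + 1) ≤ m x + 1) := by
    intro t
    rw [decide_eq_decide, p2_eq]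
    have : 1 ≤ 2 ^ (t + 1) := Nat.one_le_two_pow
    omega
  dsimp only
  simp only [h1]
  have h2 : ∀ t, t < cnt (fun t => decide (2 ^ (t + 1) ≤ m x + 1)) (m x) ↔ t < cls (m x) := by
    intro t
    rw [lt_cnt, decide_eq_true_eq]
    · constructor
      · intro h3
        by_contra h4
        have h5 := (cls_bounds (m x)).2
        have h6 : 2 ^ (cls (m x) + 1) ≤ 2 ^ (t + 1) :=
          Nat.pow_le_pow_right (by norm_num) (by omega)
        omega
      · intro h3
        have h5 := (cls_bounds (m x)).1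
        exact (Nat.pow_le_pow_right (by norm_num) h3).trans h5
    · intro j h
      rw [decide_eq_true_eq] at h ⊢
      exact (Nat.pow_le_pow_right (by norm_num) (by omega)).trans h
    · rw [decide_eq_false_iff_not, not_le]
      exact Nat.lt_two_pow_self
  apply le_antisymm
  · by_contra h3
    exact absurd ((h2 _).1 (not_le.1 h3)) (lt_irrefl _)
  · by_contra h3
    exact absurd ((h2 _).2 (not_le.1 h3)) (lt_irrefl _)

lemma PT_τf {α : Type} [DEnc α] {m : α → ℕ} (hm : PT m) : PT (fun x => τf a b (m x)) := by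
  have h := PT_cnt (P := fun z : α × ℕ =>
      decide (4 ^ b * (p2 (m z.1 ^ b) (z.2 * a) + 1) < m z.1 ^ b)) (n := m)
    (PT.nlt (PT.nmul (PT.const _) (PT.nsucc (PT_p2 (PT_npow (hm.comp PT.fst) b)
      (PT.nmul PT.snd (PT.const a))))) (PT_npow (hm.comp PT.fst) b)) hm
  refine h.congr fun x => ?_
  unfold τf
  congr 1
  funext t
  dsimp only
  rw [decide_eq_decide, p2_eq]
  have h1 : 1 ≤ 2 ^ (t * a) := Nat.one_le_two_pow
  have h2 : 1 ≤ 4 ^ b := Nat.one_le_pow _ _ (by norm_num)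
  rcases le_or_gt (2 ^ (t * a) - 1) (m x ^ b) with h3 | h3
  · rw [min_eq_right h3, Nat.sub_add_cancel h1]
  · rw [min_eq_left h3.le]
    have h4 : m x ^ b + 1 ≤ 4 ^ b * (m x ^ b + 1) := Nat.le_mul_of_pos_left _ h2
    have h5 : 2 ^ (t * a) ≤ 4 ^ b * 2 ^ (t * a) := Nat.le_mul_of_pos_left _ h2
    omega

lemma PT_lg {α : Type} [DEnc α] {i : α → ℕ} (hi : PT i) : PT (fun x => lg (i x)) := by
  have h := PT_cnt (P := fun z : α × ℕ => decide (10 * p2 (i z.1 + 1) (z.2 + 1) ≤ i z.1))
    (n := i) (PT.nle (PT.nmul (PT.const 10) (PT_p2 (PT.nsucc (hi.comp PT.fst))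
      (PT.nsucc PT.snd))) (hi.comp PT.fst)) hi
  refine h.congr fun x => ?_
  unfold lg
  congr 1
  funext t
  dsimp only
  rw [decide_eq_decide, p2_eq]
  unfold Off
  omega

end

end Pool.Agent.MP_92db0f_lc_thr
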