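import Pool.Agent.MP_92db0f_lc_thr.KLO
import Pool.Agent.MP_92db0f_lc_mul.Machines

/-!
The nodes of the recursive evaluation: descriptions, nodes, instances of the complete language.
-/

set_option autoImplicit false

namespace Pool.Agent.MP_92db0f_lc_thr

open Turing Computability Lib.helper60 MP_92db0f_lc_alg Function
open MP_92db0f_lc hiding answers InNEXP

/-! ### instances of the complete language -/

/-- the instance of the complete language -/
def red (u : List Bool) (κ : ℕ) (X : List Bool) : List Bool :=
  encPair (u ++ List.replicate (κ * X.length) true, X)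

lemma length_red (u : List Bool) (κ : ℕ) (X : List Bool) :
    (red u κ X).length = 2 * (u.length + κ * X.length) + 2 + X.length := by
  unfold red
  rw [length_encPair, List.length_append, List.length_replicate]

lemma PT_red {α : Type} [DEnc α] {u X : α → List Bool} {κ : α → ℕ} (hu : PT u) (hκ : PT κ)
    (hX : PT X) : PT (fun z => red (u z) (κ z) (X z)) :=
  PT_encPair (PT.append hu (PT.replicate (PT.nmul hκ (PT.length hX)) (PT.const true))) hX

/-- a string with a description `w`, padded to the length `L` -/
def padTo (L : ℕ) (w : List Bool) : List Bool :=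
  encPair (w, List.replicate (L - (2 * w.length + 2)) true)

lemma length_padTo {L : ℕ} {w : List Bool} (h : 2 * w.length + 2 ≤ L) :
    (padTo L w).length = L := by
  unfold padTo
  rw [length_encPair, List.length_replicate]
  omega

lemma unpair_padTo (L : ℕ) (w : List Bool) : (unpair (padTo L w)).1 = w := by
  unfold padTo
  rw [unpair_enc]

lemma PT_padTo {α : Type} [DEnc α] {L : α → ℕ} {w : α → List Bool} (hL : PT L) (hw : PT w) :
    PT (fun z => padTo (L z) (w z)) :=
  PT_encPair hw (PT.replicate (PT.nsub hL (PT.nadd (PT.nmul (PT.const 2) (PT.length hw))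
    (PT.const 2))) (PT.const true))

/-! ### lists of strings -/

lemma length_ustep (w : List Bool) : ∀ s : UState,
    (w.foldl ustep s).2.2.2.length ≤ s.2.2.2.length + w.length := by
  induction w with
  | nil => intro s; simp
  | cons b w ih =>
    intro s
    rw [List.foldl_cons, List.length_cons]
    refine (ih _).trans ?_
    have h : (ustep s b).2.2.2.length ≤ s.2.2.2.length + 1 := by
      obtain ⟨mode, bit, u, v⟩ := s
      unfold ustep
      dsimp only
      split_ifs
      · simp
      · cases bit
        · cases b <;> simp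
        · simp
      · simp
    omega

lemma length_unpair_snd (w : List Bool) : (unpair w).2.length ≤ w.length := by
  unfold unpair
  dsimp only
  rw [List.length_reverse]
  have := length_ustep w (0, false, [], [])
  simpa using this

/-- the entry `j` of a list of strings -/
def nthC (c : List Bool) (j : ℕ) : List Bool :=
  (unpair ((fun c => (unpair c).2)^[j] c)).1

/-- the list of the strings `f 0, ..., f (n - 1)` -/
def mkC (f : ℕ → List Bool) : ℕ → List Bool
  | 0 => []
  | n + 1 => encPair (f 0, mkC (fun i => f (i + 1)) n)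

lemma nthC_mkC (n : ℕ) : ∀ (f : ℕ → List Bool) (j : ℕ), j < n → nthC (mkC f n) j = f j := by
  induction n with
  | zero => intro f j hj; omega
  | succ n ih =>
    intro f j hj
    rcases j with _ | j
    · unfold nthC mkC
      rw [iterate_zero_apply, unpair_enc]
    · have h := ih (fun i => f (i + 1)) j (by omega)
      unfold nthC at h ⊢
      rw [iterate_succ_apply, mkC, unpair_enc]
      exact h

lemma length_mkC (n : ℕ) : ∀ f : ℕ → List Bool,
    (mkC f n).length = ∑ i ∈ Finset.range n, (2 * (f i).length + 2) := by
  induction n with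
  | zero => intro f; rfl
  | succ n ih =>
    intro f
    rw [mkC, length_encPair, ih, Finset.sum_range_succ']
    ring

lemma PT_nthC {α : Type} [DEnc α] {c : α → List Bool} {j : α → ℕ} (hc : PT c) (hj : PT j) :
    PT (fun z => nthC (c z) (j z)) := by
  have hs : PT (fun c : List Bool => (unpair c).2) := PT_unpair.p2
  have hl : ∀ (c : List Bool) (i : ℕ), ((fun c => (unpair c).2)^[i] c).length ≤ c.length := by
    intro c i
    induction i with
    | zero => exact le_rfl
    | succ i ih =>
      rw [iterate_succ_apply']
      exact (length_unpair_snd _).trans ih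
  have h := PT.iterateNat (count := j) (init := c) hj hc hs
    ⟨fun z => 4 * tsize (c z) + 1, ((PB.const 4).mul hc.size).add (PB.const 1), fun z i _ => by
      have h1 := tsize_bits_le ((fun c => (unpair c).2)^[i] (c z))
      have h2 := hl (c z) i
      have h3 : (c z).length ≤ tsize (c z) := length_le_tsize _
      beta_reduce
      omega⟩
  exact (PT_unpair.comp h).p1

/-! ### descriptions -/

/-- the description of an input -/
def mkw (m e J : ℕ) (u : List Bool) (κ : ℕ) (u' : List Bool) (κ' : ℕ) (ch : List Bool) :
    List Bool :=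
  encPair (List.replicate m true, encPair (encPair (
    encPair (List.replicate e true, List.replicate J true),
    encPair (encPair (u, List.replicate κ true), encPair (u', List.replicate κ' true))), ch))

def pm (w : List Bool) : ℕ := (unpair w).1.length
def pb (w : List Bool) : List Bool := (unpair (unpair w).2).1
def pch (w : List Bool) : List Bool := (unpair (unpair w).2).2
def pe (w : List Bool) : ℕ := (unpair (unpair (pb w)).1).1.length
def pJ (w : List Bool) : ℕ := (unpair (unpair (pb w)).1).2.length
def puD (w : List Bool) : List Bool := (unpair (unpair (unpair (pb w)).2).1).1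
def pkD (w : List Bool) : ℕ := (unpair (unpair (unpair (pb w)).2).1).2.length
def puS (w : List Bool) : List Bool := (unpair (unpair (unpair (pb w)).2).2).1
def pkS (w : List Bool) : ℕ := (unpair (unpair (unpair (pb w)).2).2).2.length

section

variable (m e J : ℕ) (u : List Bool) (κ : ℕ) (u' : List Bool) (κ' : ℕ) (ch : List Bool)

@[simp] lemma pm_mkw : pm (mkw m e J u κ u' κ' ch) = m := by simp [pm, mkw, unpair_enc]
@[simp] lemma pch_mkw : pch (mkw m e J u κ u' κ' ch) = ch := by simp [pch, mkw, unpair_enc]
@[simp] lemma pe_mkw : pe (mkw m e J u κ u' κ' ch) = e := by simp [pe, pb, mkw, unpair_enc]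
@[simp] lemma pJ_mkw : pJ (mkw m e J u κ u' κ' ch) = J := by simp [pJ, pb, mkw, unpair_enc]
@[simp] lemma puD_mkw : puD (mkw m e J u κ u' κ' ch) = u := by simp [puD, pb, mkw, unpair_enc]
@[simp] lemma pkD_mkw : pkD (mkw m e J u κ u' κ' ch) = κ := by simp [pkD, pb, mkw, unpair_enc]
@[simp] lemma puS_mkw : puS (mkw m e J u κ u' κ' ch) = u' := by simp [puS, pb, mkw, unpair_enc]
@[simp] lemma pkS_mkw : pkS (mkw m e J u κ u' κ' ch) = κ' := by simp [pkS, pb, mkw, unpair_enc]

lemma length_mkw : (mkw m e J u κ u' κ' ch).length =
    2 * m + ch.length + (8 * e + 4 * J + 8 * u.length + 4 * κ + 4 * u'.length + 2 * κ' + 32) := by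
  unfold mkw
  simp only [length_encPair, List.length_replicate]
  ring

end

lemma PT_pm : PT pm := PT.length PT_unpair.p1
lemma PT_pb : PT pb := (PT_unpair.comp PT_unpair.p2).p1
lemma PT_pch : PT pch := (PT_unpair.comp PT_unpair.p2).p2
lemma PT_pe : PT pe := PT.length (PT_unpair.comp (PT_unpair.comp PT_pb).p1).p1
lemma PT_pJ : PT pJ := PT.length (PT_unpair.comp (PT_unpair.comp PT_pb).p1).p2
lemma PT_puD : PT puD := (PT_unpair.comp (PT_unpair.comp (PT_unpair.comp PT_pb).p2).p1).p1
lemma PT_pkD : PT pkD :=
  PT.length (PT_unpair.comp (PT_unpair.comp (PT_unpair.comp PT_pb).p2).p1).p2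
lemma PT_puS : PT puS := (PT_unpair.comp (PT_unpair.comp (PT_unpair.comp PT_pb).p2).p2).p1
lemma PT_pkS : PT pkS :=
  PT.length (PT_unpair.comp (PT_unpair.comp (PT_unpair.comp PT_pb).p2).p2).p2

/-! ### nodes -/

/-- the depth of a node -/
def dp (s : List Bool) : ℕ := (unpair s).1.length

/-- the node below `s` that belongs to the answers `p` -/
def child (s p : List Bool) : List Bool :=
  encPair (List.replicate (dp s + 1) true, encPair (p, s))

lemma dp_nil : dp [] = 0 := rfl

lemma dp_child (s p : List Bool) : dp (child s p) = dp s + 1 := by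
  unfold child
  rw [dp, unpair_enc, List.length_replicate]

lemma unpair_child (s p : List Bool) : unpair (unpair (child s p)).2 = (p, s) := by
  unfold child
  rw [unpair_enc, unpair_enc]

lemma length_child (s p : List Bool) :
    (child s p).length = s.length + 2 * p.length + 2 * dp s + 6 := by
  unfold child
  rw [length_encPair, length_encPair, List.length_replicate]
  ring

lemma PT_dp : PT dp := PT.length PT_unpair.p1

lemma PT_child {α : Type} [DEnc α] {s p : α → List Bool} (hs : PT s) (hp : PT p) :
    PT (fun z => child (s z) (p z)) :=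
  PT_encPair (PT.replicate (PT.nsucc (PT_dp.comp hs)) (PT.const true)) (PT_encPair hp hs)

/-- the length of the padded node -/
def lvl (a : ℕ) (w : List Bool) (j : ℕ) : ℕ :=
  100 * (p2 (2 ^ a * pm w ^ a) (a * (pe w - j)) + 1) + 100

/-- the padded node -/
def zin (a : ℕ) (w s : List Bool) : List Bool := padTo (lvl a w (dp s)) (encPair (w, s))

/-- the instance of the node -/
def inst (a : ℕ) (w s : List Bool) : List Bool :=
  bif decide (dp s = 0) then red (puD w) (pkD w) (zin a w s) else red (puS w) (pkS w) (zin a w s)

/-- the instance of the node with the advice -/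
def xin (a : ℕ) (w s : List Bool) : List Bool × List Bool :=
  (inst a w s, (unpair (nthC (pch w) (dp s))).1)

def tT (w s : List Bool) : List Bool := (unpair (unpair (nthC (pch w) (dp s))).2).1
def tθ (w s : List Bool) : List Bool := (unpair (unpair (nthC (pch w) (dp s))).2).2

section

variable {α : Type} [DEnc α] {w s : α → List Bool}

lemma PT_lvl (a : ℕ) (hw : PT w) {j : α → ℕ} (hj : PT j) : PT (fun z => lvl a (w z) (j z)) :=
  PT.nadd (PT.nmul (PT.const 100) (PT.nsucc (PT_p2 (PT.nmul (PT.const _)
    (PT_npow (PT_pm.comp hw) a)) (PT.nmul (PT.const a) (PT.nsub (PT_pe.comp hw) hj)))))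
    (PT.const 100)

lemma PT_zin (a : ℕ) (hw : PT w) (hs : PT s) : PT (fun z => zin a (w z) (s z)) :=
  PT_padTo (PT_lvl a hw (PT_dp.comp hs)) (PT_encPair hw hs)

lemma PT_inst (a : ℕ) (hw : PT w) (hs : PT s) : PT (fun z => inst a (w z) (s z)) :=
  PT.cond (PT.neq (PT_dp.comp hs) (PT.const 0))
    (PT_red (PT_puD.comp hw) (PT_pkD.comp hw) (PT_zin a hw hs))
    (PT_red (PT_puS.comp hw) (PT_pkS.comp hw) (PT_zin a hw hs))

lemma PT_xin (a : ℕ) (hw : PT w) (hs : PT s) : PT (fun z => xin a (w z) (s z)) :=
  PT.pair (PT_inst a hw hs) (PT_unpair.comp (PT_nthC (PT_pch.comp hw) (PT_dp.comp hs))).p1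

lemma PT_tT (hw : PT w) (hs : PT s) : PT (fun z => tT (w z) (s z)) :=
  (PT_unpair.comp (PT_unpair.comp (PT_nthC (PT_pch.comp hw) (PT_dp.comp hs))).p2).p1

lemma PT_tθ (hw : PT w) (hs : PT s) : PT (fun z => tθ (w z) (s z)) :=
  (PT_unpair.comp (PT_unpair.comp (PT_nthC (PT_pch.comp hw) (PT_dp.comp hs))).p2).p2

end

end Pool.Agent.MP_92db0f_lc_thr
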