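import Pool.Agent.MP_92db0f_lc_mul.Conf
import Pool.Agent.MP_92db0f_lc_thr.Defs

/-!
Configurations: oracles into which a set of addresses is coded by blocks.
-/

set_option autoImplicit false

namespace Pool.Agent.MP_92db0f_lc_thr

open MP_92db0f_lc_alg MP_92db0f_lc_mul

/-- An oracle whose blocks with addresses in `G` are marked. -/
structure Conf {E : ℕ → Type} [∀ i, CommRing (E i)] {w : ℕ → ℕ} {pat : Set (List Bool)}
    (hpat : Universal E w pat) where
  G : Set (List Bool)
  A : Set (List Bool)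
  mem : ∀ x, ¬ (x ∈ A ↔ x ∈ base pat) → ∃ z ∈ G, ∃ a b, x = z ++ (a ++ b) ∧
    a.length = z.length ∧ b.length = z.length
  ex : ∀ z ∈ G, ∃ b, b.length = z.length ∧ z ++ (b ++ b) ∈ A
  uniq : ∀ z b b' : List Bool, b.length = z.length → b'.length = z.length →
    z ++ (b ++ b) ∈ A → z ++ (b' ++ b') ∈ A → b = b'

variable {E : ℕ → Type} [∀ i, CommRing (E i)] {w : ℕ → ℕ} {pat : Set (List Bool)}
  {hpat : Universal E w pat}

open Classical in
/-- One block is marked. -/
lemma Conf.add (κ : Conf hpat) {z : List Bool} (hz : z ∉ κ.G) {M : ℕ}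
    (hzl : 4 * (5 * M + 10) ≤ z.length) (S : Finset (Pr E)) (hS : wt w S < 2 ^ (5 * M + 10)) :
    ∃ κ' : Conf hpat, κ'.G = insert z κ.G ∧ Agree κ.A κ'.A S ∧
      ∀ x : List Bool, x.length < z.length → (x ∈ κ'.A ↔ x ∈ κ.A) := by
  -- the block is as in the initial oracle
  have hblock : ∀ a b : List Bool, a.length = z.length → b.length = z.length →
      (z ++ (a ++ b) ∈ κ.A ↔ (a ∈ pat ∧ b ∉ pat)) := by
    intro a b ha hb
    rw [← mem_base ha hb]
    by_contra hmem
    obtain ⟨z', hz', a', b', he, ha', hb'⟩ := κ.mem _ hmem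
    obtain ⟨h1, -, -⟩ := third ha hb ha' hb' he
    exact hz (h1 ▸ hz')
  have hcat : ∀ a b : Fin z.length → Bool, List.ofFn (Fin.append z.get (Fin.append a b)) =
      z ++ (List.ofFn a ++ List.ofFn b) := by
    intro a b
    rw [List.ofFn_fin_append, List.ofFn_fin_append, List.ofFn_get]
  obtain ⟨B, T, b₀, hb₀, hb₀p, hB, hBS⟩ := exists_block hpat κ.A S z.length (by omega)
    z.get
    (fun a b => by
      rw [hcat]
      exact hblock _ _ (List.length_ofFn) (List.length_ofFn))
    (hS.le.trans (Nat.pow_le_pow_right (by norm_num) (by omega)))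
  set b₁ := List.ofFn b₀ with hb₁
  have hb₁l : b₁.length = z.length := List.length_ofFn
  simp only [hcat] at hB
  -- nothing changes outside of the column `b₁` of the block
  have hout : ∀ x, (∀ a : Fin z.length → Bool, x ≠ z ++ (List.ofFn a ++ b₁)) →
      (x ∈ B ↔ x ∈ κ.A) := by
    intro x hx
    rw [hB]
    constructor
    · rintro (h | ⟨a, _, _, h⟩)
      · exact h.1
      · exact absurd h (hx a)
    · intro h
      refine Or.inl ⟨h, ?_⟩
      rintro ⟨a, _, _, h'⟩
      exact hx a h'
  have hin : z ++ (b₁ ++ b₁) ∈ B := (hB _).2 (Or.inr ⟨b₀, hb₀, hb₀p, rfl⟩)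
  -- a diagonal string of the block
  have hdiag : ∀ b : List Bool, b.length = z.length → z ++ (b ++ b) ∈ B → b = b₁ := by
    intro b hb h
    by_contra hne
    rw [hout _ (fun a h' => hne (third hb hb (List.length_ofFn) hb₁l h').2.2), hblock b b hb hb] at h
    exact h.2 h.1
  refine ⟨⟨insert z κ.G, B, ?_, ?_, ?_⟩, rfl, hBS, ?_⟩
  · intro x hx
    by_cases hcol : ∃ a : Fin z.length → Bool, x = z ++ (List.ofFn a ++ b₁)
    · obtain ⟨a, rfl⟩ := hcol
      exact ⟨z, Or.inl rfl, List.ofFn a, b₁, rfl, List.length_ofFn, hb₁l⟩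
    · rw [hout x (fun a h => hcol ⟨a, h⟩)] at hx
      obtain ⟨z', hz', a', b', h2, h3, h4⟩ := κ.mem x hx
      exact ⟨z', Or.inr hz', a', b', h2, h3, h4⟩
  · rintro z' (rfl | hz')
    · exact ⟨b₁, hb₁l, hin⟩
    · obtain ⟨b, hb, hm⟩ := κ.ex z' hz'
      refine ⟨b, hb, (hout _ fun a h => hz ?_).2 hm⟩
      exact (third hb hb (List.length_ofFn) hb₁l h).1 ▸ hz'
  · intro z' b b' hb hb' h1 h2
    by_cases hzz : z' = z
    · subst hzz
      exact (hdiag b hb h1).trans (hdiag b' hb' h2).symm
    · rw [hout _ (fun a h => hzz (third hb hb (List.length_ofFn) hb₁l h).1)] at h1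
      rw [hout _ (fun a h => hzz (third hb' hb' (List.length_ofFn) hb₁l h).1)] at h2
      exact κ.uniq z' b b' hb hb' h1 h2
  · intro x hx2
    refine hout x fun a h => ?_
    rw [h, List.length_append, List.length_append, hb₁l, List.length_ofFn] at hx2
    omega

/-- the initial configuration -/
def Conf.init (hpat : Universal E w pat) : Conf hpat where
  G := ∅
  A := base pat
  mem := fun x hx => absurd Iff.rfl hx
  ex := fun z h => absurd h (Set.notMem_empty z)
  uniq := fun z b b' hb hb' h _ => by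
    rw [mem_base hb hb] at h
    exact absurd h.1 h.2

/-! ### binary search -/

/-- the first `i` answers of the binary search with `D` digits for `c` -/
def sb (D c : ℕ) : ℕ → List Bool
  | 0 => []
  | i + 1 => sb D c i ++ [decide (nn D (sb D c i) ≤ c)]

@[simp] lemma length_sb (D c i : ℕ) : (sb D c i).length = i := by
  induction i with
  | zero => rfl
  | succ i ih => rw [sb, List.length_append, ih, List.length_singleton]

lemma vb_sb {D c : ℕ} (h : c < 2 ^ D) : vb (sb D c D) = c := by
  have key : ∀ i ≤ D, vb (sb D c i) * 2 ^ (D - (sb D c i).length) ≤ c ∧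
      c < (vb (sb D c i) + 1) * 2 ^ (D - (sb D c i).length) := by
    intro i
    induction i with
    | zero =>
      intro _
      have h1 : sb D c 0 = [] := rfl
      rw [h1, vb_nil, List.length_nil, Nat.sub_zero]
      exact ⟨by simp, by simpa using h⟩
    | succ i ih =>
      intro hi
      obtain ⟨h1, h2⟩ := ih (by omega)
      exact search_step (by rw [length_sb]; omega) h1 h2 (by rw [decide_eq_true_eq])
  obtain ⟨h1, h2⟩ := key D le_rfl
  rw [length_sb, Nat.sub_self, pow_zero, mul_one] at h1 h2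
  omega

/-- the answers of the binary searches for `h 0, ..., h (n - 1)` -/
def hs (D h : ℕ → ℕ) : ℕ → List Bool
  | 0 => []
  | n + 1 => hs D h n ++ sb (D n) (h n) (D n)

lemma length_hs (D h : ℕ → ℕ) (n : ℕ) : (hs D h n).length = ∑ i ∈ Finset.range n, D i := by
  induction n with
  | zero => rfl
  | succ n ih => rw [hs, List.length_append, ih, length_sb, Finset.sum_range_succ]

lemma hs_congr {D h h' : ℕ → ℕ} {n : ℕ} (hh : ∀ i < n, h i = h' i) : hs D h n = hs D h' n := by
  induction n with
  | zero => rfl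
  | succ n ih => rw [hs, hs, ih (fun i hi => hh i (by omega)), hh n (by omega)]

lemma hs_inj {D h h' : ℕ → ℕ} {n : ℕ} (hD : ∀ i < n, h i < 2 ^ D i) (hD' : ∀ i < n, h' i < 2 ^ D i)
    (he : hs D h n = hs D h' n) : ∀ i < n, h i = h' i := by
  induction n with
  | zero => intro i hi; omega
  | succ n ih =>
    rw [hs, hs] at he
    have h1 := List.append_inj he (by rw [length_hs, length_hs])
    intro i hi
    rcases Nat.lt_succ_iff_lt_or_eq.1 hi with hi' | rfl
    · exact ih (fun i hi => hD i (by omega)) (fun i hi => hD' i (by omega)) h1.1 i hi'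
    · rw [← vb_sb (hD i (by omega)), h1.2, vb_sb (hD' i (by omega))]

end Pool.Agent.MP_92db0f_lc_thr
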