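import Pool.Agent.MP_92db0f_lc_thr.Legal

/-!
The limit oracle, by an extremal principle.
-/

set_option autoImplicit false

namespace Pool.Agent.MP_92db0f_lc_thr

open MP_92db0f_lc_mul (Pr Pt wt Agree Agree.refl Agree.trans Agree.symm Agree.mono Same mext_of_ne
  mem_base third base)

open MP_92db0f_lc_alg

variable {E : ℕ → Type} [∀ i, CommRing (E i)] {Y : Sys E}

/-- `b` is obtained from `a` by steps -/
def Reach (a b : LC Y) : Prop := Relation.ReflTransGen (fun a b => ∃ t, StepAt t a b) a b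

/-- no step at a class at most `t` is possible any more -/
def Stable (t : ℕ) (a : LC Y) : Prop := ∀ b, Reach a b → ∀ j ≤ t, ∀ d, ¬ StepAt j b d

lemma Reach.mono {a b : LC Y} (h : Reach a b) (r : Y.Req) : a.c r ≤ b.c r := by
  induction h with
  | refl => exact le_rfl
  | tail _ hs ih =>
    obtain ⟨m, hs⟩ := hs
    exact ih.trans (hs.mono r)

lemma Reach.Hc_mono {a b : LC Y} (h : Reach a b) (t : ℕ) : Hc Y a.c t ≤ Hc Y b.c t :=
  Finset.sum_le_sum fun _ _ => Finset.sum_le_sum fun r _ => h.mono r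

lemma Stable.reach {t : ℕ} {a b : LC Y} (h : Stable t a) (hab : Reach a b) : Stable t b :=
  fun d hd => h d (hab.trans hd)

lemma Stable.mono {t j : ℕ} {a : LC Y} (h : Stable t a) (hj : j ≤ t) : Stable j a :=
  fun d hd i hi => h d hd i (hi.trans hj)

/-- what does not change any more -/
lemma Stable.keep {t : ℕ} {a b : LC Y} (h : Stable t a) (hab : Reach a b) :
    (∀ r, cls (Y.lv r) ≤ t → b.c r = a.c r ∧ (b.on r ↔ a.on r) ∧
      (a.on r → b.Sf r = a.Sf r ∧ Agree a.κ.A b.κ.A (a.Sf r))) ∧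
    ∀ x : List Bool, x.length < 20 * t + 40 → (x ∈ b.κ.A ↔ x ∈ a.κ.A) := by
  induction hab with
  | refl => exact ⟨fun r _ => ⟨rfl, Iff.rfl, fun _ => ⟨rfl, Agree.refl _ _⟩⟩, fun _ _ => Iff.rfl⟩
  | @tail b d hab hs ih =>
    obtain ⟨h1, h3⟩ := ih
    obtain ⟨j, hs⟩ := hs
    have hj : t < j := by
      by_contra hle
      exact h b hab j (by omega) d hs
    refine ⟨fun r hr => ?_, fun w hw => (hs.out w (by omega)).trans (h3 w hw)⟩
    obtain ⟨h4, h5, h6⟩ := h1 r hr
    obtain ⟨h7, h8, h9⟩ := hs.keep r (by omega)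
    refine ⟨h7.trans h4, h8.trans h5, fun ho => ?_⟩
    obtain ⟨h10, h11⟩ := h6 ho
    obtain ⟨h12, h13⟩ := h9 (h5.2 ho)
    rw [h10] at h12 h13
    exact ⟨h12, h11.trans h13⟩

lemma Stable.Hc_eq {t : ℕ} {a b : LC Y} (h : Stable t a) (hab : Reach a b) :
    Hc Y b.c t = Hc Y a.c t := by
  apply Finset.sum_congr rfl
  intro m hm
  apply Finset.sum_congr rfl
  intro r hr
  rw [mem_cls] at hm
  have h1 := (Y.mem_Rq m r).1 hr
  exact ((h.keep hab).1 r (by rw [h1, hm])).1

/-- maximal number of steps at the next class -/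
lemma exists_stable (t : ℕ) (a : LC Y) (h : ∀ j < t, Stable j a) :
    ∃ b, Reach a b ∧ Stable t b := by
  classical
  let P : ℕ → Prop := fun k => ∃ b, Reach a b ∧ Hc Y b.c t = k
  have hP : ∃ k, P k := ⟨_, a, Relation.ReflTransGen.refl, rfl⟩
  have hb : ∀ k, P k → k ≤ 2 ^ Dg t := by
    rintro k ⟨b, _, rfl⟩
    have := b.Hc_lt t
    omega
  obtain ⟨b, hab, hbt⟩ : P (Nat.findGreatest P (2 ^ Dg t)) := by
    obtain ⟨k, hk⟩ := hP
    exact Nat.findGreatest_spec (hb k hk) hk
  refine ⟨b, hab, ?_⟩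
  intro d hbd j hj e he
  rcases Nat.lt_or_ge j t with hlt | hge
  · exact h j hlt d (hab.trans hbd) j le_rfl e he
  · have hjm : j = t := le_antisymm hj hge
    subst hjm
    have h1 : P (Hc Y e.c j) := ⟨e, (hab.trans hbd).tail ⟨j, he⟩, rfl⟩
    have h2 := Nat.le_findGreatest (hb _ h1) h1
    have h3 := hbd.Hc_mono j
    have h4 := he.inc
    omega

/-- the sequence of configurations -/
lemma exists_seq (Y : Sys E) : ∃ f : ℕ → LC Y, (∀ t, Stable t (f t)) ∧
    ∀ t n, t ≤ n → Reach (f t) (f n) := by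
  obtain ⟨a₀, -, h₀⟩ := exists_stable 0 (LC.init Y) (fun j hj => absurd hj (by omega))
  have hstep : ∀ (t : ℕ) (a : {a : LC Y // Stable t a}),
      ∃ b : {b : LC Y // Stable (t + 1) b}, Reach a.1 b.1 := by
    rintro t ⟨a, ha⟩
    obtain ⟨b, hb, hb'⟩ := exists_stable (t + 1) a (fun j hj => ha.mono (by omega))
    exact ⟨⟨b, hb'⟩, hb⟩
  choose g hg using hstep
  let f : (t : ℕ) → {a : LC Y // Stable t a} := fun t =>
    Nat.rec (motive := fun t => {a : LC Y // Stable t a}) ⟨a₀, h₀⟩ g t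
  refine ⟨fun t => (f t).1, fun t => (f t).2, ?_⟩
  intro t n htn
  induction n, htn using Nat.le_induction with
  | base => exact Relation.ReflTransGen.refl
  | succ n _ ih => exact ih.trans (hg n (f n))

/-- a block is marked iff it contains a string of the diagonal -/
lemma LC.marked (a : LC Y) (z : List Bool) :
    z ∈ a.κ.G ↔ ∃ b, b.length = z.length ∧ z ++ (b ++ b) ∈ a.κ.A := by
  constructor
  · exact a.κ.ex z
  · rintro ⟨b, hb, hm⟩
    obtain ⟨z', hz', a', b', h2, h3, h4⟩ := a.κ.mem (z ++ (b ++ b)) (by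
      rw [mem_base hb hb]
      intro h
      exact (h.1 hm).2 (h.1 hm).1)
    obtain ⟨e1, -, -⟩ := third hb hb h3 h4 h2
    exact e1 ▸ hz'

/-- **The limit oracle.** -/
theorem exists_limit (Y : Sys E) : ∃ (A : Set (List Bool)) (H : ℕ → ℕ) (on : Y.Req → Prop),
    (∀ t, H t < 2 ^ Dg t) ∧ (∀ r, Y.acc A r ↔ on r) ∧
    (∀ t u, u.length < Dg t →
      ((∃ b, b.length = (Y.cdH t u).length ∧ Y.cdH t u ++ (b ++ b) ∈ A) ↔ nn (Dg t) u ≤ H t)) ∧
    (∀ r, (∃ b, b.length = (Y.cdV r (hs Dg H (Y.τ (Y.lv r)))).length ∧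
      Y.cdV r (hs Dg H (Y.τ (Y.lv r))) ++ (b ++ b) ∈ A) ↔ on r) ∧
    ∀ z b b' : List Bool, b.length = z.length → b'.length = z.length → z ++ (b ++ b) ∈ A →
      z ++ (b' ++ b') ∈ A → b = b' := by
  classical
  obtain ⟨f, hf, hr⟩ := exists_seq Y
  -- stability
  have hH : ∀ t M, t ≤ M → Hc Y (f M).c t = Hc Y (f t).c t := fun t M hM =>
    (hf t).Hc_eq (hr _ _ hM)
  have hon : ∀ r M, cls (Y.lv r) ≤ M → ((f M).on r ↔ (f (cls (Y.lv r))).on r) := fun r M hM =>
    (((hf (cls (Y.lv r))).keep (hr _ _ hM)).1 r le_rfl).2.1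
  have hA : ∀ (x : List Bool) M, x.length ≤ M → (x ∈ (f M).κ.A ↔ x ∈ (f x.length).κ.A) :=
    fun x M hM => ((hf x.length).keep (hr _ _ hM)).2 x (by omega)
  let A : Set (List Bool) := {x | x ∈ (f x.length).κ.A}
  let dm : Pr E → ℕ := fun p => match p with
    | .inl x => x.length
    | .inr p => p.1
  have hval : ∀ (p : Pr E) M, dm p ≤ M → Same A (f M).κ.A p := by
    rintro (x | p) M hM
    · exact (hA x M hM).symm
    · apply mext_of_ne
      intro x hx
      change x ∈ (f x.length).κ.A ↔ _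
      have hM' : p.1 ≤ M := hM
      exact (hA x M (by omega)).symm
  -- marked blocks
  have hmark : ∀ z M, 3 * z.length ≤ M →
      ((∃ b, b.length = z.length ∧ z ++ (b ++ b) ∈ A) ↔ z ∈ (f M).κ.G) := by
    intro z M hM
    rw [LC.marked]
    apply exists_congr
    intro b
    refine and_congr_right fun hb => ?_
    change z ++ (b ++ b) ∈ (f (z ++ (b ++ b)).length).κ.A ↔ _
    refine (hA _ M ?_).symm
    rw [List.length_append, List.length_append]
    omega
  refine ⟨A, fun t => Hc Y (f t).c t, fun r => (f (cls (Y.lv r))).on r, ?_, ?_, ?_, ?_, ?_⟩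
  · intro t
    have := (f t).Hc_lt t
    dsimp only
    omega
  · intro r
    constructor
    · intro hacc
      by_contra ho
      dsimp only at ho
      obtain ⟨S, -, hS⟩ := Y.use A r hacc
      let M := cls (Y.lv r) + S.sup dm
      have hM : Agree A (f M).κ.A S := by
        intro p hp
        apply hval
        have := Finset.le_sup (f := dm) hp
        omega
      have h1 := hS _ hM
      have h2 : ¬ (f M).on r := by
        rw [hon r M (by omega)]
        exact ho
      obtain ⟨b, hb⟩ := (f M).act r h2 h1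
      exact hf M (f M) Relation.ReflTransGen.refl (cls (Y.lv r)) (by omega) b hb
    · intro ho
      dsimp only at ho
      have h1 := (f (cls (Y.lv r))).cert r ho
      apply h1.2
      intro p hp
      let M := cls (Y.lv r) + dm p
      have h2 := (((hf (cls (Y.lv r))).keep (hr (cls (Y.lv r)) M (by omega))).1 r le_rfl).2.2 ho
      exact (h2.2 p hp).trans (hval p M (by omega)).symm
  · intro t u hu
    dsimp only
    let M := t + 3 * (Y.cdH t u).length
    rw [hmark _ M (by omega), (f M).markH t u hu, hH t M (by omega)]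
  · intro r
    dsimp only
    obtain ⟨v, hv⟩ : ∃ v, v = hs Dg (fun t => Hc Y (f t).c t) (Y.τ (Y.lv r)) := ⟨_, rfl⟩
    rw [← hv]
    let M := cls (Y.lv r) + 3 * (Y.cdV r v).length
    have hv' : v = hs Dg (Hc Y (f M).c) (Y.τ (Y.lv r)) := by
      rw [hv]
      apply hs_congr
      intro i hi
      have h1 := Y.τ_le (Y.lv r)
      exact (hH i M (by omega)).symm
    rw [hmark _ M (by omega), ← hon r M (by omega), ← (f M).markV r, ← hv']
  · intro z b b' hb hb' h1 h2
    change z ++ (b ++ b) ∈ (f (z ++ (b ++ b)).length).κ.A at h1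
    change z ++ (b' ++ b') ∈ (f (z ++ (b' ++ b')).length).κ.A at h2
    rw [List.length_append, List.length_append, hb] at h1
    rw [List.length_append, List.length_append, hb'] at h2
    exact (f _).κ.uniq z b b' hb hb' h1 h2

end Pool.Agent.MP_92db0f_lc_thr
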