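import Pool.Agent.MP_92db0f_lc_thr.Nodes

/-!
The computations at the nodes: the test for the small language, and the table of all answers.
-/

set_option autoImplicit false

namespace Pool.Agent.MP_92db0f_lc_thr

open Turing Computability Lib.helper60 MP_92db0f_lc_alg
open MP_92db0f_lc_mul (mem_join_false mem_join_true mem_join_nil)
open MP_92db0f_lc hiding answers InNEXP

/-! ### long queries -/

/-- the query `z.1` is one to the oracle in NP with bound at least `z.2` -/
def hv (ω : List Bool → List Bool) (z : List Bool × ℕ) : Bool :=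
  z.1.headD false && decide (z.2 ≤ (ω z.1.tail).length)

/-- the answers to the long queries -/
def sel (ω : List Bool → List Bool) (q : (List Bool × List Bool) × List Bool → List Bool) (θ : ℕ)
    (x : List Bool × List Bool) (v : List Bool) : List Bool :=
  (List.range v.length).flatMap fun i =>
    bif hv ω (q (x, v.take i), θ) then [v.getD i false] else []

/-- the answer of the oracle `O` to the query `w`, which does not begin with `1` -/
noncomputable def oans (O : Set (List Bool)) (w : List Bool) : Bool :=
  decide (w.length ≠ 0) && @decide (w.tail ∈ O) (Classical.propDecidable _)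

section

variable {ω : List Bool → List Bool} {q : (List Bool × List Bool) × List Bool → List Bool}

lemma PT_hv (hω : PT ω) {α : Type} [DEnc α] {z : α → List Bool} {n : α → ℕ} (hz : PT z)
    (hn : PT n) : PT (fun y => hv ω (z y, n y)) :=
  PT.band (PT.headD hz (PT.const false)) (PT.nle hn (PT.length (hω.comp (PT.tail hz))))

lemma PT_sel (hω : PT ω) (hq : PT q) {α : Type} [DEnc α] {n : α → ℕ}
    {x : α → List Bool × List Bool} {v : α → List Bool} (hn : PT n) (hx : PT x) (hv' : PT v) :
    PT (fun y => sel ω q (n y) (x y) (v y)) := by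
  unfold sel
  refine PT.flatMap (g := fun z : α × ℕ => bif hv ω (q (x z.1, (v z.1).take z.2), n z.1) then
    [(v z.1).getD z.2 false] else []) (PT.range (PT.length hv')) ?_
  have hx2 : PT (fun z : α × ℕ => x z.1) := hx.comp PT.fst
  have hv2 : PT (fun z : α × ℕ => v z.1) := hv'.comp PT.fst
  exact PT.cond (PT_hv hω (hq.comp (PT.pair hx2 (PT_take PT.snd hv2))) (hn.comp PT.fst))
    (PT.cons (PT.getD hv2 PT.snd (PT.const false)) (PT.const [])) (PT.const [])

lemma sel_append (θ : ℕ) (x : List Bool × List Bool) (v : List Bool) (t : Bool) :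
    sel ω q θ x (v ++ [t]) = sel ω q θ x v ++ (bif hv ω (q (x, v), θ) then [t] else []) := by
  unfold sel
  rw [List.length_append, List.length_singleton, List.range_succ, List.flatMap_append]
  congr 1
  · apply List.flatMap_congr
    intro i hi
    rw [List.mem_range] at hi
    rw [List.take_append_of_le_length hi.le, List.getD_append _ _ _ _ hi]
  · simp

lemma hv_iff {w : List Bool} {θ : ℕ} :
    hv ω (w, θ) = true ↔ ∃ Q, w = true :: Q ∧ θ ≤ (ω Q).length := by
  unfold hv
  rcases w with _ | ⟨t, Q⟩
  · simp
  · cases t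
    · simp
    · simp

lemma sel_length (A : Set (List Bool)) (θ : ℕ) (x : List Bool × List Bool) (n : ℕ) :
    (sel ω q θ x (answers A q x n)).length = {i : ℕ | i < n ∧ ∃ Q : List Bool,
      q (x, answers A q x i) = true :: Q ∧ θ ≤ (ω Q).length}.ncard := by
  classical
  have h : ∀ n, (sel ω q θ x (answers A q x n)).length = ((Finset.range n).filter fun i =>
      hv ω (q (x, answers A q x i), θ) = true).card := by
    intro n
    induction n with
    | zero => simp [sel, answers]
    | succ n ih =>
      rw [answers, sel_append, List.length_append, ih, Finset.range_add_one, Finset.filter_insert]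
      cases hv ω (q (x, answers A q x n), θ)
      · simp
      · simp
  rw [h, ← Set.ncard_coe_finset]
  congr 1
  ext i
  simp [hv_iff]

lemma oans_eq {O B : Set (List Bool)} {w : List Bool} (h : w.headD false = false) :
    oans O w = @decide (w ∈ join O B) (Classical.propDecidable _) := by
  classical
  unfold oans
  rcases w with _ | ⟨t, u⟩
  · simp [mem_join_nil]
  · have ht : t = false := h
    subst ht
    rw [Bool.eq_iff_iff, Bool.and_eq_true, decide_eq_true_iff, decide_eq_true_iff,
      decide_eq_true_iff, mem_join_false]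
    simp

lemma OP_oans {α : Type} [DEnc α] (hsz : HasSz α) {O : Set (List Bool)} {w : α → List Bool}
    (hw : PT w) : OP O (fun y => oans O (w y)) :=
  OP.and hsz (PT.dnot (PT.neq (PT.length hw) (PT.const 0))) (OP.query (PT.tail hw))

end

section

variable {O : Set (List Bool)} {r : List Bool × List Bool → Bool} {ω : List Bool → List Bool}
  {q : (List Bool × List Bool) × List Bool → List Bool}
  {d : (List Bool × List Bool) × List Bool → Bool}

/-! ### exhaustive search -/

/-- exhaustive search for a certificate -/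
def br (r : List Bool × List Bool → Bool) (ω : List Bool → List Bool) (a : List Bool × ℕ) : Bool :=
  (List.range a.2).any fun t => decide ((str t).length ≤ (ω a.1).length) && r (a.1, str t)

lemma OP_br (hr : OP O r) (hω : PT ω) : OP O (br r ω) := by
  have h1 : OP O (fun z : (List Bool × ℕ) × ℕ =>
      decide ((str z.2).length ≤ (ω z.1.1).length) && r (z.1.1, str z.2)) := by
    refine OP.and (HasSz.prod (HasSz.prod HasSz.bits HasSz.nat) HasSz.nat)
      (PT.nle (PT.length (PT_str PT.snd)) (PT.length (hω.comp PT.fst.p1))) ?_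
    exact hr.comp (PT.pair PT.fst.p1 (PT_str PT.snd))
  exact OP.any (HasSz.prod HasSz.bits HasSz.nat) h1 PT.snd

lemma br_eq {R : List Bool × List Bool → Prop} (hR : ∀ p, R p ↔ r p = true) {Q : List Bool} {n : ℕ}
    (h : 2 ^ ((ω Q).length + 1) ≤ n + 1) : br r ω (Q, n) = true ↔ Q ∈ certified ω R := by
  unfold br
  rw [List.any_eq_true]
  constructor
  · rintro ⟨t, -, ht⟩
    rw [Bool.and_eq_true, decide_eq_true_eq] at ht
    exact ⟨str t, ht.1, (hR _).2 ht.2⟩
  · rintro ⟨y, hy, hRy⟩
    refine ⟨vl y, ?_, ?_⟩
    · rw [List.mem_range]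
      have h1 := vl_lt y
      have h2 : 2 ^ (y.length + 1) ≤ 2 ^ ((ω Q).length + 1) :=
        Nat.pow_le_pow_right (by norm_num) (by omega)
      dsimp only
      omega
    · rw [Bool.and_eq_true, decide_eq_true_eq, str_vl]
      exact ⟨hy, (hR _).1 hRy⟩

/-- the answer to the query `z.1`, if it is not long -/
noncomputable def fa (O : Set (List Bool)) (r : List Bool × List Bool → Bool)
    (ω : List Bool → List Bool) (z : List Bool × ℕ) : Bool :=
  bif z.1.headD false then br r ω (z.1.tail, z.2) else oans O z.1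

lemma OP_fa (hr : OP O r) (hω : PT ω) : OP O (fa O r ω) :=
  OP.ite (PT.headD PT.fst (PT.const false)) ((OP_br hr hω).comp (PT.pair (PT.tail PT.fst) PT.snd))
    (OP_oans (HasSz.prod HasSz.bits HasSz.nat) PT.fst)

lemma fa_eq {R : List Bool × List Bool → Prop} (hR : ∀ p, R p ↔ r p = true) {w : List Bool}
    {n : ℕ} (h : ∀ Q, w = true :: Q → 2 ^ ((ω Q).length + 1) ≤ n + 1) :
    fa O r ω (w, n) = @decide (w ∈ join O (certified ω R)) (Classical.propDecidable _) := by
  classical
  unfold fa
  dsimp only
  rcases w with _ | ⟨t, Q⟩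
  · exact oans_eq rfl
  · cases t
    · exact oans_eq rfl
    · rw [List.headD_cons, cond_true, List.tail_cons, Bool.eq_iff_iff, decide_eq_true_iff,
        mem_join_true]
      exact br_eq hR (h Q rfl)

/-! ### the test for the small language -/

/-- the answer to the next query of the computation at the node `s` above the node `z.1.1.1.2`, if
the answers to the long queries are those of the node; the first long query that is not
answered in this way is answered by testing the certificate `z.1.1.2` -/
noncomputable def stA (O : Set (List Bool)) (r : List Bool × List Bool → Bool)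
    (ω : List Bool → List Bool) (q : (List Bool × List Bool) × List Bool → List Bool) (a : ℕ)
    (z : (((List Bool × (List Bool × List Bool)) × List Bool) × ℕ) × List Bool) : Bool :=
  bif hv ω (q (xin a z.1.1.1.1 z.1.1.1.2.2, z.2), vlc z.1.2 (tθ z.1.1.1.1 z.1.1.1.2.2)) then
    (bif decide ((sel ω q (vlc z.1.2 (tθ z.1.1.1.1 z.1.1.1.2.2)) (xin a z.1.1.1.1 z.1.1.1.2.2)
        z.2).length < z.1.1.1.2.1.length) then
      z.1.1.1.2.1.getD (sel ω q (vlc z.1.2 (tθ z.1.1.1.1 z.1.1.1.2.2))
        (xin a z.1.1.1.1 z.1.1.1.2.2) z.2).length false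
    else (decide (z.1.1.2.length ≤ (ω (q (xin a z.1.1.1.1 z.1.1.1.2.2, z.2)).tail).length) &&
      r ((q (xin a z.1.1.1.1 z.1.1.1.2.2, z.2)).tail, z.1.1.2)))
  else fa O r ω (q (xin a z.1.1.1.1 z.1.1.1.2.2, z.2),
    p2 z.1.2 (vlc z.1.2 (tθ z.1.1.1.1 z.1.1.1.2.2)))

/-- the test of a certificate for the small language -/
noncomputable def st (O : Set (List Bool)) (r : List Bool × List Bool → Bool)
    (ω : List Bool → List Bool) (q : (List Bool × List Bool) × List Bool → List Bool) (a : ℕ)
    (z : ((List Bool × (List Bool × List Bool)) × List Bool) × ℕ) : Bool :=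
  (sel ω q (vlc z.2 (tθ z.1.1.1 z.1.1.2.2)) (xin a z.1.1.1 z.1.1.2.2)
    (iterV (stA O r ω q a) z (p2 z.2 (vlc z.2 (tT z.1.1.1 z.1.1.2.2)) + 1))).getD
      z.1.1.2.1.length false

lemma OP_st (hr : OP O r) (hω : PT ω) (hq : PT q) (a : ℕ) : OP O (st O r ω q a) := by
  have sz : HasSz (((List Bool × (List Bool × List Bool)) × List Bool) × ℕ) :=
    HasSz.prod (HasSz.prod (HasSz.prod HasSz.bits (HasSz.prod HasSz.bits HasSz.bits))
      HasSz.bits) HasSz.nat
  have n : PT (fun y : (((List Bool × (List Bool × List Bool)) × List Bool) × ℕ) × List Bool =>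
      y.1.2) := PT.fst.p2
  have w : PT (fun y : (((List Bool × (List Bool × List Bool)) × List Bool) × ℕ) × List Bool =>
      y.1.1.1.1) := PT.fst.p1.p1.p1
  have s : PT (fun y : (((List Bool × (List Bool × List Bool)) × List Bool) × ℕ) × List Bool =>
      y.1.1.1.2.2) := PT.fst.p1.p1.p2.p2
  have x := PT_xin a w s
  have θ := PT_vlc n (PT_tθ w s)
  have hQ := hq.comp (PT.pair x PT.snd)
  have hs := PT_sel hω hq θ x PT.snd
  have h1 : OP O (stA O r ω q a) := by
    refine OP.ite (PT_hv hω hQ θ) (OP.ite (PT.nlt (PT.length hs) (PT.length PT.fst.p1.p1.p2.p1))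
      (OP.of_PT (PT.getD PT.fst.p1.p1.p2.p1 (PT.length hs) (PT.const false))) ?_)
      ((OP_fa hr hω).comp (PT.pair hQ (PT_p2 n θ)))
    exact OP.and (HasSz.prod sz HasSz.bits) (PT.nle (PT.length PT.fst.p1.p2)
      (PT.length (hω.comp (PT.tail hQ)))) (hr.comp (PT.pair (PT.tail hQ) PT.fst.p1.p2))
  have n' : PT (fun y : ((List Bool × (List Bool × List Bool)) × List Bool) × ℕ => y.2) := PT.snd
  have w' : PT (fun y : ((List Bool × (List Bool × List Bool)) × List Bool) × ℕ => y.1.1.1) :=
    PT.fst.p1.p1
  have s' : PT (fun y : ((List Bool × (List Bool × List Bool)) × List Bool) × ℕ => y.1.1.2.2) :=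
    PT.fst.p1.p2.p2
  exact OP.iter sz h1
    (n := fun z => p2 z.2 (vlc z.2 (tT z.1.1.1 z.1.1.2.2)) + 1)
    (PT.nsucc (PT_p2 n' (PT_vlc n' (PT_tT w' s'))))
    (G := fun y => (sel ω q (vlc y.1.2 (tθ y.1.1.1.1 y.1.1.1.2.2)) (xin a y.1.1.1.1 y.1.1.1.2.2)
      y.2).getD y.1.1.1.2.1.length false)
    (PT.getD hs (PT.length PT.fst.p1.p1.p2.p1) (PT.const false))

/-- the test is correct -/
lemma st_eq {R : List Bool × List Bool → Prop} (hR : ∀ p, R p ↔ r p = true)
    (a : ℕ) {w s : List Bool} {N T θ : ℕ} (hT : vlc N (tT w s) = T) (hθ : vlc N (tθ w s) = θ)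
    (hT2 : 2 ^ T ≤ N + 1) (hθ2 : 2 ^ θ ≤ N + 1) {i : ℕ} (hi : i < 2 ^ T) {Q : List Bool}
    (hQ : q (xin a w s, answers (join O (certified ω R)) q (xin a w s) i) = true :: Q)
    (hQθ : θ ≤ (ω Q).length) (y : List Bool) :
    st O r ω q a (((w, (sel ω q θ (xin a w s)
      (answers (join O (certified ω R)) q (xin a w s) i), s)), y), N) = true ↔
      y.length ≤ (ω Q).length ∧ R (Q, y) := by
  classical
  obtain ⟨x, hx⟩ : ∃ x, x = xin a w s := ⟨_, rfl⟩
  obtain ⟨A, hA⟩ : ∃ A, A = join O (certified ω R) := ⟨_, rfl⟩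
  rw [← hx, ← hA] at hQ ⊢
  obtain ⟨p, hp⟩ : ∃ p, p = sel ω q θ x (answers A q x i) := ⟨_, rfl⟩
  rw [← hp]
  have hp2 : p2 N θ = 2 ^ θ - 1 := p2_eq' hθ2
  have hpT : p2 N T + 1 = 2 ^ T := by
    rw [p2_eq' hT2]
    have := Nat.one_le_two_pow (n := T)
    omega
  have hhQ : hv ω (true :: Q, θ) = true := hv_iff.2 ⟨Q, rfl, hQθ⟩
  -- the answers before the query `i`
  have hsel : ∀ j ≤ i, ∃ t, p = sel ω q θ x (answers A q x j) ++ t := by
    intro j hj
    rw [hp]
    clear hp hQ hi
    induction i, hj using Nat.le_induction with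
    | base => exact ⟨[], by simp⟩
    | succ i hji ih =>
      obtain ⟨t, ht⟩ := ih
      refine ⟨t ++ (bif hv ω (q (x, answers A q x i), θ) then
        [decide (q (x, answers A q x i) ∈ A)] else []), ?_⟩
      rw [answers, sel_append, ht, List.append_assoc]
  have hbefore : ∀ j ≤ i, iterV (stA O r ω q a) (((w, (p, s)), y), N) j = answers A q x j := by
    intro j
    induction j with
    | zero => intro _; rfl
    | succ j ih =>
      intro hj
      rw [iterV, ih (by omega), answers]
      congr 2
      unfold stA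
      dsimp only
      rw [← hx, hθ, hp2]
      obtain ⟨t, ht⟩ := hsel (j + 1) hj
      rw [answers, sel_append, List.append_assoc] at ht
      obtain ⟨v, hv'⟩ : ∃ v, v = answers A q x j := ⟨_, rfl⟩
      rw [← hv'] at ht ⊢
      cases hh : hv ω (q (x, v), θ) with
      | false =>
        rw [cond_false, hA]
        apply fa_eq hR
        intro Q' hQ'
        have h1 : ¬ hv ω (q (x, v), θ) = true := by rw [hh]; decide
        rw [hv_iff] at h1
        have h2 : (ω Q').length + 1 ≤ θ := by
          by_contra h3
          exact h1 ⟨Q', hQ', by omega⟩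
        have h3 : 2 ^ ((ω Q').length + 1) ≤ 2 ^ θ := Nat.pow_le_pow_right (by norm_num) h2
        omega
      | true =>
        rw [hh, cond_true] at ht
        rw [cond_true]
        have h1 : (sel ω q θ x v).length < p.length := by
          rw [ht]
          simp
        rw [show decide ((sel ω q θ x v).length < p.length) = true from decide_eq_true h1,
          cond_true, ht, List.getD_append_right _ _ _ _ le_rfl, Nat.sub_self]
        rfl
  -- the answer to the query `i`
  have hnow : iterV (stA O r ω q a) (((w, (p, s)), y), N) (i + 1) =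
      answers A q x i ++ [decide (y.length ≤ (ω Q).length) && r (Q, y)] := by
    rw [iterV, hbefore i le_rfl]
    congr 2
    unfold stA
    dsimp only
    rw [← hx, hθ, hQ, hhQ, ← hp, cond_true, show decide (p.length < p.length) = false from by simp,
      cond_false]
    rfl
  -- the later answers
  have hlater : ∀ j, ∃ t, sel ω q θ x (iterV (stA O r ω q a) (((w, (p, s)), y), N) (i + 1 + j)) =
      p ++ ((decide (y.length ≤ (ω Q).length) && r (Q, y)) :: t) := by
    intro j
    induction j with
    | zero =>
      refine ⟨[], ?_⟩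
      rw [Nat.add_zero, hnow, sel_append, ← hp, hQ, hhQ, cond_true]
    | succ j ih =>
      obtain ⟨t, ht⟩ := ih
      refine ⟨t ++ (bif hv ω (q (x, iterV (stA O r ω q a) (((w, (p, s)), y), N) (i + 1 + j)), θ)
        then [stA O r ω q a ((((w, (p, s)), y), N),
          iterV (stA O r ω q a) (((w, (p, s)), y), N) (i + 1 + j))] else []), ?_⟩
      rw [← Nat.add_assoc, iterV, sel_append, ht, List.append_assoc, List.cons_append]
  unfold st
  dsimp only
  rw [← hx, hT, hθ, hpT]
  obtain ⟨j, hj⟩ := Nat.exists_eq_add_of_le (Nat.succ_le_of_lt hi)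
  obtain ⟨t, ht⟩ := hlater j
  obtain ⟨I, hI⟩ : ∃ I, I = iterV (stA O r ω q a) (((w, (p, s)), y), N) (2 ^ T) := ⟨_, rfl⟩
  rw [← hI]
  have hI' : I = iterV (stA O r ω q a) (((w, (p, s)), y), N) (i + 1 + j) := by
    rw [hI]
    exact congrArg (iterV (stA O r ω q a) (((w, (p, s)), y), N)) hj
  rw [hI', ht, List.getD_append_right _ _ _ _ le_rfl, Nat.sub_self]
  change ((decide (y.length ≤ (ω Q).length) && r (Q, y)) = true) ↔ _
  rw [Bool.and_eq_true, decide_eq_true_eq, ← hR]

/-! ### the table -/

/-- the answer to the next query of the computation at the node `z.1.1.2`; the table `z.1.2.1`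
contains the answers for the nodes below -/
noncomputable def nvA (O : Set (List Bool)) (r : List Bool × List Bool → Bool)
    (ω : List Bool → List Bool) (q : (List Bool × List Bool) × List Bool → List Bool) (a : ℕ)
    (z : ((List Bool × List Bool) × (List Bool × ℕ)) × List Bool) : Bool :=
  bif (hv ω (q (xin a z.1.1.1 z.1.1.2, z.2), vlc z.1.2.2 (tθ z.1.1.1 z.1.1.2)) &&
      decide (dp z.1.1.2 < pJ z.1.1.1)) then
    z.1.2.1.getD (z.1.2.2 - 1 - vlc z.1.2.2 (child z.1.1.2
      (sel ω q (vlc z.1.2.2 (tθ z.1.1.1 z.1.1.2)) (xin a z.1.1.1 z.1.1.2) z.2))) false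
  else fa O r ω (q (xin a z.1.1.1 z.1.1.2, z.2),
    bif decide (dp z.1.1.2 < pJ z.1.1.1) then
      p2 z.1.2.2 (vlc z.1.2.2 (tθ z.1.1.1 z.1.1.2)) else z.1.2.2)

/-- the decision of the computation at the node `z.1.2` -/
noncomputable def nv (O : Set (List Bool)) (r : List Bool × List Bool → Bool)
    (ω : List Bool → List Bool) (q : (List Bool × List Bool) × List Bool → List Bool)
    (d : (List Bool × List Bool) × List Bool → Bool) (a : ℕ)
    (z : (List Bool × List Bool) × (List Bool × ℕ)) : Bool :=
  d (xin a z.1.1 z.1.2, iterV (nvA O r ω q a) z (p2 z.2.2 (vlc z.2.2 (tT z.1.1 z.1.2)) + 1))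

lemma OP_nv (hr : OP O r) (hω : PT ω) (hq : PT q) (hd : PT d) (a : ℕ) :
    OP O (nv O r ω q d a) := by
  have sz : HasSz ((List Bool × List Bool) × (List Bool × ℕ)) :=
    HasSz.prod (HasSz.prod HasSz.bits HasSz.bits) (HasSz.prod HasSz.bits HasSz.nat)
  have n : PT (fun y : ((List Bool × List Bool) × (List Bool × ℕ)) × List Bool => y.1.2.2) :=
    PT.fst.p2.p2
  have w : PT (fun y : ((List Bool × List Bool) × (List Bool × ℕ)) × List Bool => y.1.1.1) :=
    PT.fst.p1.p1
  have s : PT (fun y : ((List Bool × List Bool) × (List Bool × ℕ)) × List Bool => y.1.1.2) :=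
    PT.fst.p1.p2
  have x := PT_xin a w s
  have θ := PT_vlc n (PT_tθ w s)
  have hQ := hq.comp (PT.pair x PT.snd)
  have hJ := PT.nlt (PT_dp.comp s) (PT_pJ.comp w)
  have hs := PT_sel hω hq θ x PT.snd
  have h1 : OP O (nvA O r ω q a) := by
    refine OP.ite (PT.band (PT_hv hω hQ θ) hJ) (OP.of_PT (PT.getD PT.fst.p2.p1 (PT.nsub
      (PT.nsub n (PT.const 1)) (PT_vlc n (PT_child s hs))) (PT.const false))) ?_
    exact (OP_fa hr hω).comp (PT.pair hQ (PT.cond hJ (PT_p2 n θ) n))
  have n' : PT (fun y : (List Bool × List Bool) × (List Bool × ℕ) => y.2.2) := PT.snd.p2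
  have w' : PT (fun y : (List Bool × List Bool) × (List Bool × ℕ) => y.1.1) := PT.fst.p1
  have s' : PT (fun y : (List Bool × List Bool) × (List Bool × ℕ) => y.1.2) := PT.fst.p2
  exact OP.iter sz h1 (n := fun z => p2 z.2.2 (vlc z.2.2 (tT z.1.1 z.1.2)) + 1)
    (PT.nsucc (PT_p2 n' (PT_vlc n' (PT_tT w' s'))))
    (G := fun y : ((List Bool × List Bool) × (List Bool × ℕ)) × List Bool =>
      d (xin a y.1.1.1 y.1.1.2, y.2)) (hd.comp (PT.pair x PT.snd))

/-- the computation at a node is correct, if the entries of the table are -/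
lemma nv_eq {R : List Bool × List Bool → Prop} (hR : ∀ p, R p ↔ r p = true)
    (a : ℕ) {w s tb : List Bool} {N T θ : ℕ} (hT : vlc N (tT w s) = T) (hθ : vlc N (tθ w s) = θ)
    (hT2 : 2 ^ T ≤ N + 1) (hθ2 : 2 ^ θ ≤ N + 1)
    (h : ∀ i < 2 ^ T, ∀ Q,
      q (xin a w s, answers (join O (certified ω R)) q (xin a w s) i) = true :: Q →
      θ ≤ (ω Q).length → (¬ dp s < pJ w → 2 ^ ((ω Q).length + 1) ≤ N + 1) ∧ (dp s < pJ w →
        (tb.getD (N - 1 - vlc N (child s (sel ω q θ (xin a w s)
          (answers (join O (certified ω R)) q (xin a w s) i)))) false = true ↔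
            Q ∈ certified ω R))) :
    nv O r ω q d a ((w, s), (tb, N)) =
      d (xin a w s, answers (join O (certified ω R)) q (xin a w s) (2 ^ T)) := by
  classical
  obtain ⟨x, hx⟩ : ∃ x, x = xin a w s := ⟨_, rfl⟩
  obtain ⟨A, hA⟩ : ∃ A, A = join O (certified ω R) := ⟨_, rfl⟩
  rw [← hx, ← hA] at h ⊢
  have hp2 : p2 N θ = 2 ^ θ - 1 := p2_eq' hθ2
  have hpT : p2 N T + 1 = 2 ^ T := by
    rw [p2_eq' hT2]
    have := Nat.one_le_two_pow (n := T)
    omega
  have key : ∀ i ≤ 2 ^ T, iterV (nvA O r ω q a) ((w, s), (tb, N)) i = answers A q x i := by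
    intro i
    induction i with
    | zero => intro _; rfl
    | succ i ih =>
      intro hi
      rw [iterV, ih (by omega), answers]
      congr 2
      have hi' := h i (by omega)
      unfold nvA
      dsimp only
      rw [← hx, hθ, hp2]
      obtain ⟨v, hv'⟩ : ∃ v, v = answers A q x i := ⟨_, rfl⟩
      rw [← hv'] at hi' ⊢
      by_cases hh : hv ω (q (x, v), θ) = true
      · obtain ⟨Q, hQ, hQθ⟩ := hv_iff.1 hh
        obtain ⟨h1, h2⟩ := hi' Q hQ hQθ
        by_cases hJ : dp s < pJ w
        · rw [hh, show decide (dp s < pJ w) = true from decide_eq_true hJ, Bool.and_true,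
            cond_true, Bool.eq_iff_iff, decide_eq_true_iff, hQ, hA, mem_join_true]
          exact h2 hJ
        · rw [show decide (dp s < pJ w) = false from decide_eq_false hJ, Bool.and_false,
            cond_false, cond_false, hA]
          apply fa_eq hR
          intro Q' hQ'
          rw [hQ, List.cons.injEq] at hQ'
          rw [← hQ'.2]
          exact h1 hJ
      · have hlight : ∀ Q', q (x, v) = true :: Q' → (ω Q').length + 1 ≤ θ := by
          intro Q' hQ'
          rw [hv_iff] at hh
          by_contra h3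
          exact hh ⟨Q', hQ', by omega⟩
        rw [Bool.not_eq_true] at hh
        rw [hh, Bool.false_and, cond_false, hA]
        apply fa_eq hR
        intro Q' hQ'
        have h3 : 2 ^ ((ω Q').length + 1) ≤ 2 ^ θ :=
          Nat.pow_le_pow_right (by norm_num) (hlight Q' hQ')
        cases decide (dp s < pJ w)
        · rw [cond_false]
          omega
        · rw [cond_true]
          omega
  unfold nv
  dsimp only
  rw [← hx, hT, hpT, key _ le_rfl]

/-- the next entry of the table -/
noncomputable def tb (O : Set (List Bool)) (r : List Bool × List Bool → Bool)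
    (ω : List Bool → List Bool) (q : (List Bool × List Bool) × List Bool → List Bool)
    (d : (List Bool × List Bool) × List Bool → Bool) (a : ℕ) (z : (List Bool × ℕ) × List Bool) :
    Bool := nv O r ω q d a ((z.1.1, str (z.1.2 - 1 - z.2.length)), (z.2, z.1.2))

/-- the negation of the last entry of the table -/
noncomputable def dv (O : Set (List Bool)) (r : List Bool × List Bool → Bool)
    (ω : List Bool → List Bool) (q : (List Bool × List Bool) × List Bool → List Bool)
    (d : (List Bool × List Bool) × List Bool → Bool) (a : ℕ) (z : List Bool × ℕ) : Bool :=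
  !(iterV (tb O r ω q d a) z z.2).getD (z.2 - 1) false

lemma OP_dv (hr : OP O r) (hω : PT ω) (hq : PT q) (hd : PT d) (a : ℕ) :
    OP O (dv O r ω q d a) := by
  have sz : HasSz (List Bool × ℕ) := HasSz.prod HasSz.bits HasSz.nat
  have h1 : OP O (tb O r ω q d a) :=
    (OP_nv hr hω hq hd a).comp (f := fun z : (List Bool × ℕ) × List Bool =>
      ((z.1.1, str (z.1.2 - 1 - z.2.length)), (z.2, z.1.2)))
      (PT.pair (PT.pair PT.fst.p1 (PT_str (PT.nsub (PT.nsub PT.fst.p2 (PT.const 1))
        (PT.length PT.snd)))) (PT.pair PT.snd PT.fst.p2))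
  exact OP.iter sz h1 (n := fun z => z.2) PT.snd
    (G := fun y : (List Bool × ℕ) × List Bool => !y.2.getD (y.1.2 - 1) false)
    (PT.bnot (PT.getD PT.snd (PT.nsub PT.fst.p2 (PT.const 1)) (PT.const false)))

lemma iterV_take {α : Type} (h : α × List Bool → Bool) (a : α) {i j : ℕ} (hij : i ≤ j) :
    (iterV h a j).take i = iterV h a i := by
  induction j, hij using Nat.le_induction with
  | base => rw [List.take_of_length_le (by rw [iterV_length])]
  | succ j hj ih =>
    rw [iterV, List.take_append_of_le_length (by rw [iterV_length]; omega)]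
    exact ih

lemma iterV_getD {α : Type} (h : α × List Bool → Bool) (a : α) {i j : ℕ} (hij : i < j) :
    (iterV h a j).getD i false = h (a, iterV h a i) := by
  have h1 := iterV_take h a (Nat.succ_le_of_lt hij)
  have h2 : (iterV h a j).getD i false = (iterV h a (i + 1)).getD i false := by
    rw [← h1, List.getD_eq_getElem?_getD, List.getD_eq_getElem?_getD, List.getElem?_take,
      if_pos (by omega)]
  rw [h2, iterV, List.getD_append_right _ _ _ _ (by rw [iterV_length]), iterV_length, Nat.sub_self]
  rfl

/-- the entries of the table satisfy the recursion -/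
lemma tb_entry (a : ℕ) (w : List Bool) {N : ℕ} {s : List Bool} (hs : vl s < N) :
    ∃ tab : List Bool, (iterV (tb O r ω q d a) (w, N) N).getD (N - 1 - vl s) false =
      nv O r ω q d a ((w, s), (tab, N)) ∧ ∀ c : List Bool, vl s < vl c → vl c < N →
        tab.getD (N - 1 - vl c) false =
          (iterV (tb O r ω q d a) (w, N) N).getD (N - 1 - vl c) false := by
  refine ⟨iterV (tb O r ω q d a) (w, N) (N - 1 - vl s), ?_, ?_⟩
  · rw [iterV_getD _ _ (by omega : N - 1 - vl s < N)]
    unfold tb
    dsimp only
    rw [iterV_length, show N - 1 - (N - 1 - vl s) = vl s by omega, str_vl]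
  · intro c h1 h2
    rw [iterV_getD _ _ (by omega : N - 1 - vl c < N),
      iterV_getD _ _ (by omega : N - 1 - vl c < N - 1 - vl s)]

end

/-! ### the two languages -/

/-- the small language: is the long query that belongs to the node answered by yes? -/
def Sset (O : Set (List Bool)) (r : List Bool × List Bool → Bool) (ω : List Bool → List Bool)
    (q : (List Bool × List Bool) × List Bool → List Bool) (a : ℕ) : Set (List Bool) :=
  {z | ∃ y : List Bool, y.length ≤ 2 ^ z.length - 1 ∧
    st O r ω q a ((((unpair (unpair z).1).1, unpair (unpair (unpair (unpair z).1).2).2), y),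
      2 ^ z.length - 1) = true}

lemma InNE_Sset {O : Set (List Bool)} {r : List Bool × List Bool → Bool}
    {ω : List Bool → List Bool} {q : (List Bool × List Bool) × List Bool → List Bool}
    (hr : OP O r) (hω : PT ω) (hq : PT q) (a : ℕ) : InNE O (Sset O r ω q a) := by
  refine ⟨5, fun p => (decide (p2 ((unpair p.2).2.length + 1) p.1.length ≤
    (unpair p.2).2.length ∧ (unpair p.2).1.length ≤ p2 (unpair p.2).2.length p.1.length) &&
    st O r ω q a ((((unpair (unpair p.1).1).1, unpair (unpair (unpair (unpair p.1).1).2).2),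
      (unpair p.2).1), p2 (unpair p.2).2.length p.1.length)) = true, ?_, fun z => ?_⟩
  · apply OP.polyTime
    have u : PT (fun p : List Bool × List Bool => unpair p.2) := PT_unpair.comp PT.snd
    have w : PT (fun p : List Bool × List Bool => unpair (unpair p.1).1) :=
      PT_unpair.comp (PT_unpair.comp PT.fst).p1
    have hp := PT_p2 (PT.length u.p2) (PT.length (PT.fst (α := List Bool) (β := List Bool)))
    refine OP.and (HasSz.prod HasSz.bits HasSz.bits) (PT.dand (PT.nle (PT_p2 (PT.nsucc
      (PT.length u.p2)) (PT.length PT.fst)) (PT.length u.p2)) (PT.nle (PT.length u.p1) hp)) ?_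
    exact (OP_st hr hω hq a).comp (PT.pair (PT.pair (PT.pair w.p1
      (PT_unpair.comp (PT_unpair.comp w.p2).p2)) u.p1) hp)
  · have hpos : 1 ≤ 2 ^ z.length := Nat.one_le_two_pow
    constructor
    · rintro ⟨y, hy, hst⟩
      refine ⟨encPair (y, List.replicate (2 ^ z.length - 1) true), ?_, ?_⟩
      · rw [length_encPair, List.length_replicate]
        have h1 : 2 ^ (5 * z.length + 5) ≥ 32 * 2 ^ z.length := by
          rw [pow_add]
          have := Nat.pow_le_pow_right (n := 2) (by norm_num) (by omega : z.length ≤ 5 * z.length)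
          omega
        omega
      · dsimp only
        rw [unpair_enc, List.length_replicate, p2_eq' (by omega), p2_eq' (by omega),
          Bool.and_eq_true, decide_eq_true_eq]
        exact ⟨⟨le_rfl, hy⟩, hst⟩
    · rintro ⟨c, -, hc⟩
      dsimp only at hc
      rw [Bool.and_eq_true, decide_eq_true_eq] at hc
      obtain ⟨⟨h1, h2⟩, h3⟩ := hc
      rw [p2_eq] at h1
      have h4 : 2 ^ z.length - 1 ≤ (unpair c).2.length := by omega
      rw [p2_eq' (by omega)] at h2 h3
      exact ⟨_, h2, h3⟩

/-- the large language -/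
def Dset (O : Set (List Bool)) (r : List Bool × List Bool → Bool) (ω : List Bool → List Bool)
    (q : (List Bool × List Bool) × List Bool → List Bool)
    (d : (List Bool × List Bool) × List Bool → Bool) (a κT : ℕ) : Set (List Bool) :=
  {X | dv O r ω q d a ((unpair (unpair X).1).1, 2 ^ (κT * X.length + κT) - 1) = true}

lemma InNE_Dset {O : Set (List Bool)} {r : List Bool × List Bool → Bool}
    {ω : List Bool → List Bool} {q : (List Bool × List Bool) × List Bool → List Bool}
    {d : (List Bool × List Bool) × List Bool → Bool} (hr : OP O r) (hω : PT ω) (hq : PT q)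
    (hd : PT d) (a κT : ℕ) : InNE O (Dset O r ω q d a κT) := by
  refine ⟨κT, fun p => (decide (p2 (p.2.length + 1) (κT * p.1.length + κT) ≤ p.2.length) &&
    dv O r ω q d a ((unpair (unpair p.1).1).1, p2 p.2.length (κT * p.1.length + κT))) = true, ?_,
    fun X => ?_⟩
  · apply OP.polyTime
    have e : PT (fun p : List Bool × List Bool => κT * p.1.length + κT) :=
      PT.nadd (PT.nmul (PT.const κT) (PT.length PT.fst)) (PT.const κT)
    have l : PT (fun p : List Bool × List Bool => p.2.length) := PT.length PT.snd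
    exact OP.and (HasSz.prod HasSz.bits HasSz.bits) (PT.nle (PT_p2 (PT.nsucc l) e) l)
      ((OP_dv hr hω hq hd a).comp (PT.pair (PT_unpair.comp (PT_unpair.comp PT.fst).p1).p1
        (PT_p2 l e)))
  · have hpos : 1 ≤ 2 ^ (κT * X.length + κT) := Nat.one_le_two_pow
    constructor
    · intro h
      refine ⟨List.replicate (2 ^ (κT * X.length + κT) - 1) true, ?_, ?_⟩
      · rw [List.length_replicate]
        omega
      · dsimp only
        rw [List.length_replicate, p2_eq' (by omega), p2_eq' (by omega), Bool.and_eq_true,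
          decide_eq_true_eq]
        exact ⟨le_rfl, h⟩
    · rintro ⟨c, -, hc⟩
      dsimp only at hc
      rw [Bool.and_eq_true, decide_eq_true_eq] at hc
      obtain ⟨h1, h2⟩ := hc
      rw [p2_eq] at h1
      have h3 : 2 ^ (κT * X.length + κT) - 1 ≤ c.length := by omega
      rw [p2_eq' (by omega)] at h2
      exact h2

end Pool.Agent.MP_92db0f_lc_thr
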