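import Pool.Agent.MP_92db0f_lc_thr.Lower

/-!
For every oracle, `NE` is not contained in the class of languages decided with few long queries.
-/

set_option autoImplicit false

namespace Pool.Agent.MP_92db0f_lc_thr

open Turing Computability Lib.helper60 MP_92db0f_lc_alg
open MP_92db0f_lc hiding answers InNEXP

/-! ### numbers -/

lemma pow_bound {a b : ℕ} (hb : 1 ≤ b) {C c m w Q : ℕ} (hm : 1 ≤ m) (hw : w ≤ c * m ^ b)
    (hQ : Q ^ b ≤ C * w ^ a + C) : Q ≤ (C * c ^ a + C) * m ^ a := by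
  have h1 : w ^ a ≤ c ^ a * (m ^ a) ^ b := by
    calc w ^ a ≤ (c * m ^ b) ^ a := Nat.pow_le_pow_left hw a
      _ = c ^ a * (m ^ a) ^ b := by rw [mul_pow, ← pow_mul, ← pow_mul, Nat.mul_comm b a]
  have h2 : 1 ≤ (m ^ a) ^ b := Nat.one_le_pow _ _ (Nat.one_le_pow _ _ hm)
  have h3 : Q ^ b ≤ ((C * c ^ a + C) * m ^ a) ^ b := by
    rw [mul_pow]
    have h4 : C * c ^ a + C ≤ (C * c ^ a + C) ^ b := Nat.le_self_pow (by omega) _
    calc Q ^ b ≤ C * (c ^ a * (m ^ a) ^ b) + C * (m ^ a) ^ b := by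
          refine hQ.trans (Nat.add_le_add (Nat.mul_le_mul_left _ h1) ?_)
          exact Nat.le_mul_of_pos_right _ h2
      _ = (C * c ^ a + C) * (m ^ a) ^ b := by ring
      _ ≤ _ := Nat.mul_le_mul_right _ h4
  exact (Nat.pow_le_pow_iff_left (by omega)).1 h3

lemma poly_le_two_pow (P : Polynomial ℕ) : ∃ n₁, ∀ n ≥ n₁, P.eval n ≤ 2 ^ n := by
  obtain ⟨s₀, hs₀⟩ := exists_poly_le (P * P)
  refine ⟨s₀, fun n hn => ?_⟩
  have h1 := hs₀ n
  rw [Polynomial.eval_mul] at h1
  have h2 : 2 ^ (s₀ + n) ≤ 2 ^ n * 2 ^ n := by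
    rw [← pow_add]
    exact Nat.pow_le_pow_right (by norm_num) (by omega)
  exact Nat.mul_self_le_mul_self_iff.1 (h1.trans h2)

/-- the length of the instance of the complete language for an input of length `100 t + 100` -/
lemma red_len {u : List Bool} {κ t n : ℕ} {X : List Bool} (ht : 1 ≤ t)
    (hX : X.length = 100 * t + 100) (hn : n = (red u κ X).length) :
    n ≤ (2 * u.length + 400 * κ + 202) * t ∧ 100 * t + 100 ≤ n := by
  rw [hn, length_red, hX]
  constructor
  · nlinarith [Nat.zero_le (u.length), Nat.zero_le κ, Nat.mul_le_mul_left u.length ht,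
      Nat.mul_le_mul_left κ ht]
  · omega

lemma sum_geom (g : ℕ → ℕ) (M : ℕ) : ∀ n : ℕ, (∀ j < n, 64 * 2 ^ j * g j ≤ M) →
    32 * ∑ j ∈ Finset.range n, g j ≤ M := by
  intro n h
  have key : ∀ k ≤ n, 2 ^ k * (64 * ∑ j ∈ Finset.range k, g j) + 2 * M ≤ 2 * 2 ^ k * M := by
    intro k
    induction k with
    | zero => intro _; simp
    | succ k ih =>
      intro hk
      have h1 := ih (by omega)
      have h2 := h k (by omega)
      rw [Finset.sum_range_succ, pow_succ]
      nlinarith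
  have h1 := key n le_rfl
  have h2 : 2 ^ n * (64 * ∑ j ∈ Finset.range n, g j) ≤ 2 ^ n * (2 * M) := by nlinarith
  have h3 := Nat.le_of_mul_le_mul_left h2 (by positivity)
  omega

lemma small_bound {a b : ℕ} (ha : 1 ≤ a) (hb : 1 ≤ b) {c K n e j G : ℕ} (hc : 1 ≤ c)
    (hj : j ≤ e + 1) (hK : (64 * 2 ^ b) ^ a * c ^ b ≤ K) (hn : n ≤ c * 2 ^ (a * (e + 1 - j)))
    (hG : K * G ^ a ≤ n ^ b) : 64 * 2 ^ j * G ≤ 2 ^ (b * e) := by
  have h1 : (64 * 2 ^ b * G) ^ a * c ^ b ≤ (2 ^ (b * (e + 1 - j))) ^ a * c ^ b := by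
    calc (64 * 2 ^ b * G) ^ a * c ^ b = (64 * 2 ^ b) ^ a * c ^ b * G ^ a := by rw [mul_pow]; ring
      _ ≤ K * G ^ a := Nat.mul_le_mul_right _ hK
      _ ≤ n ^ b := hG
      _ ≤ (c * 2 ^ (a * (e + 1 - j))) ^ b := Nat.pow_le_pow_left hn b
      _ = (2 ^ (b * (e + 1 - j))) ^ a * c ^ b := by
          rw [mul_pow, ← pow_mul, ← pow_mul]
          ring_nf
  have h2 : 64 * 2 ^ b * G ≤ 2 ^ (b * (e + 1 - j)) :=
    (Nat.pow_le_pow_iff_left (by omega)).1 (Nat.le_of_mul_le_mul_right h1 (Nat.pow_pos hc))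
  have h3 : 2 ^ b * (64 * 2 ^ j * G) ≤ 2 ^ b * 2 ^ (b * e) := by
    calc 2 ^ b * (64 * 2 ^ j * G) = 64 * 2 ^ b * G * 2 ^ j := by ring
      _ ≤ 2 ^ (b * (e + 1 - j)) * 2 ^ (b * j) :=
          Nat.mul_le_mul h2 (Nat.pow_le_pow_right (by norm_num) (Nat.le_mul_of_pos_left _ hb))
      _ = 2 ^ b * 2 ^ (b * e) := by
          rw [← pow_add, ← pow_add]
          congr 1
          have h5 : b * (e + 1 - j) + b * j = b * (e + 1) := by
            rw [← Nat.mul_add]
            congr 1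
            omega
          rw [h5]
          ring
  exact Nat.le_of_mul_le_mul_left h3 (by positivity)

/-! ### the nodes that occur -/

/-- the nodes that occur in the evaluation -/
inductive Good (A : Set (List Bool)) (ω : List Bool → List Bool)
    (q : (List Bool × List Bool) × List Bool → List Bool) (a J : ℕ) (T θ : ℕ → ℕ)
    (w : List Bool) : List Bool → Prop
  | nil : Good A ω q a J T θ w []
  | child (s : List Bool) (i : ℕ) (Q : List Bool) (hs : Good A ω q a J T θ w s) (hJ : dp s < J)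
      (hi : i < 2 ^ T (inst a w s).length)
      (hQ : q (xin a w s, answers A q (xin a w s) i) = true :: Q)
      (hθ : θ (inst a w s).length ≤ (ω Q).length) :
      Good A ω q a J T θ w (child s (sel ω q (θ (inst a w s).length) (xin a w s)
        (answers A q (xin a w s) i)))

lemma Good.facts {A : Set (List Bool)} {ω : List Bool → List Bool}
    {q : (List Bool × List Bool) × List Bool → List Bool} {a J : ℕ} {T θ : ℕ → ℕ}
    {w s : List Bool} (hs : Good A ω q a J T θ w s) {n f : ℕ → ℕ}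
    (hlen : ∀ s, dp s ≤ J → s.length ≤ ∑ i ∈ Finset.range (dp s), (2 * f i + 2 * i + 6) →
      (inst a w s).length = n (dp s))
    (hf : ∀ s, dp s < J → (inst a w s).length = n (dp s) → ∀ i < 2 ^ T (n (dp s)),
      (sel ω q (θ (n (dp s))) (xin a w s) (answers A q (xin a w s) i)).length ≤ f (dp s)) :
    dp s ≤ J ∧ s.length ≤ ∑ i ∈ Finset.range (dp s), (2 * f i + 2 * i + 6) := by
  induction hs with
  | nil => exact ⟨Nat.zero_le _, by simp⟩
  | child s i Q hs hJ hi hQ hθ ih =>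
    obtain ⟨h1, h2⟩ := ih
    have h3 := hlen s h1 h2
    rw [h3] at hi ⊢
    have h4 := hf s hJ h3 i hi
    rw [dp_child, length_child, Finset.sum_range_succ]
    exact ⟨hJ, by omega⟩

end Pool.Agent.MP_92db0f_lc_thr
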