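import Pool.Agent.MP_92db0f_lc_thr.Setup

/-!
For every oracle, `NE` is not contained in the class of languages decided with few long queries:
the theorem.
-/

set_option autoImplicit false

namespace Pool.Agent.MP_92db0f_lc_thr

open Turing Computability Lib.helper60 MP_92db0f_lc_alg
open MP_92db0f_lc hiding answers InNEXP

section

variable {a b C : ℕ} {O : Set (List Bool)} {T θ : ℕ → ℕ} {F : ℕ → ℕ → ℕ} {adv : ℕ → List Bool}
  {ω : List Bool → List Bool} {R : List Bool × List Bool → Prop}
  {q : (List Bool × List Bool) × List Bool → List Bool}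
  {d : (List Bool × List Bool) × List Bool → Bool} {w : List Bool} {J N : ℕ} {t n g : ℕ → ℕ}
  {uS : List Bool} {κS : ℕ}

lemma Setup.xin_eq (S : Setup a b C T θ adv w J N t n g uS κS) {s : List Bool} (h1 : dp s ≤ J)
    (h2 : (inst a w s).length = n (dp s)) : xin a w s = (inst a w s, adv (inst a w s).length) := by
  unfold xin
  rw [S.info _ h1, unpair_enc, h2]

lemma Setup.decode (S : Setup a b C T θ adv w J N t n g uS κS) {s : List Bool} (h1 : dp s ≤ J) :
    tT w s = str (T (n (dp s))) ∧ tθ w s = str (θ (n (dp s))) := by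
  unfold tT tθ
  rw [S.info _ h1, unpair_enc, unpair_enc]
  exact ⟨rfl, rfl⟩

lemma Setup.few (S : Setup a b C T θ adv w J N t n g uS κS)
    (hg : ∀ j, g j = F (n j) (θ (n j)) + (adv (n j)).length) {L : Set (List Bool)}
    (hdec : Decides O T F adv ω R q d L) : ∀ s, dp s < J → (inst a w s).length = n (dp s) →
      ∀ i < 2 ^ T (n (dp s)), (sel ω q (θ (n (dp s))) (xin a w s)
        (answers (join O (certified ω R)) q (xin a w s) i)).length ≤ g (dp s) := by
  intro s h1 h2 i hi
  rw [S.xin_eq h1.le h2, sel_length]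
  have h3 := hdec.profile (inst a w s) (θ (n (dp s)))
  rw [h2] at h3 ⊢
  refine le_trans (Set.ncard_le_ncard ?_ ?_) (h3.trans ?_)
  · rintro j ⟨h5, h6⟩
    exact ⟨by omega, h6⟩
  · exact (Set.finite_lt_nat (2 ^ T (n (dp s)))).subset fun j hj => hj.1
  · rw [hg]
    omega

lemma Setup.short (S : Setup a b C T θ adv w J N t n g uS κS) {L : Set (List Bool)}
    (hmax : ∀ n ℓ, C * n ^ a + C < ℓ ^ b → F n ℓ = 0) (hdec : Decides O T F adv ω R q d L) :
    ∀ s, dp s ≤ J → (inst a w s).length = n (dp s) → ∀ i < 2 ^ T (n (dp s)), ∀ Q,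
      q (xin a w s, answers (join O (certified ω R)) q (xin a w s) i) = true :: Q →
        (ω Q).length ^ b ≤ C * n (dp s) ^ a + C := by
  intro s h1 h2 i hi Q hQ
  by_contra h3
  have h4 := hmax (n (dp s)) (ω Q).length (by omega)
  have h5 := hdec.profile (inst a w s) (ω Q).length
  rw [S.xin_eq h1 h2] at hQ
  rw [h2] at h5 hQ
  rw [h4, Nat.le_zero, Set.ncard_eq_zero
    ((Set.finite_lt_nat (2 ^ T (n (dp s)))).subset fun j hj => hj.1)] at h5
  exact (Set.mem_empty_iff_false i).1 (h5 ▸ ⟨hi, Q, hQ, le_rfl⟩)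

/-- The membership of a node in the small language. -/
lemma Setup.small (S : Setup a b C T θ adv w J N t n g uS κS)
    {r : List Bool × List Bool → Bool} (hRr : ∀ p, R p ↔ r p = true) {s p : List Bool}
    (g1 : dp s < J) (f3 : (zin a w (child s p)).length = 100 * t (dp s + 1) + 100) {i : ℕ}
    (hi : i < 2 ^ T (n (dp s))) {Q : List Bool}
    (hQ : q (xin a w s, answers (join O (certified ω R)) q (xin a w s) i) = true :: Q)
    (hθ : θ (n (dp s)) ≤ (ω Q).length)
    (hp : p = sel ω q (θ (n (dp s))) (xin a w s)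
      (answers (join O (certified ω R)) q (xin a w s) i))
    (hb1 : (ω Q).length ^ b ≤ C * n (dp s) ^ a + C) :
    zin a w (child s p) ∈ Sset O r ω q a ↔ Q ∈ certified ω R := by
  have hu1 : unpair (unpair (zin a w (child s p))).1 = (w, child s p) := by
    unfold zin
    rw [unpair_padTo, unpair_enc]
  obtain ⟨g7, g8⟩ := S.decode g1.le
  have hTj2 := S.Tt1 _ g1.le
  have hpz : ∀ x ≤ t (dp s + 1), 2 ^ x ≤ (2 ^ (zin a w (child s p)).length - 1) + 1 := by
    intro x hx
    rw [f3]
    have h1 : 2 ^ x ≤ 2 ^ (100 * t (dp s + 1) + 100) :=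
      Nat.pow_le_pow_right (by norm_num) (by omega)
    omega
  have hst := st_eq (O := O) (q := q) (ω := ω) hRr a (w := w) (s := s)
    (N := 2 ^ (zin a w (child s p)).length - 1) (T := T (n (dp s)))
    (θ := θ (n (dp s))) ?_ ?_ (hpz _ (by omega)) (hpz _ (by omega)) hi hQ hθ
  · rw [← hp] at hst
    constructor
    · rintro ⟨y, -, hy⟩
      rw [hu1, unpair_child] at hy
      exact ⟨y, (hst y).1 hy⟩
    · rintro ⟨y, hy⟩
      refine ⟨y, ?_, ?_⟩
      · rw [f3]
        exact hy.1.trans (S.cert _ g1 _ hb1)
      · rw [hu1, unpair_child]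
        exact (hst y).2 hy
  · rw [g7, vlc_eq, vl_str, min_eq_right]
    have h1 := hpz (T (n (dp s))) (by omega)
    have h2 : T (n (dp s)) < 2 ^ T (n (dp s)) := Nat.lt_two_pow_self
    omega
  · rw [g8, vlc_eq, vl_str, min_eq_right]
    have h1 := hpz (θ (n (dp s))) (by omega)
    have h2 : θ (n (dp s)) < 2 ^ θ (n (dp s)) := Nat.lt_two_pow_self
    omega

/-- All entries of the table that matter are correct. -/
lemma Setup.main (S : Setup a b C T θ adv w J N t n g uS κS)
    (hg : ∀ j, g j = F (n j) (θ (n j)) + (adv (n j)).length)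
    (hmax : ∀ n ℓ, C * n ^ a + C < ℓ ^ b → F n ℓ = 0)
    (hdec : Decides O T F adv ω R q d (KL O))
    {r : List Bool × List Bool → Bool} (hRr : ∀ p, R p ↔ r p = true)
    (hS : ∀ z, z ∈ Sset O r ω q a ↔ red uS κS z ∈ KL O) :
    ∀ k : ℕ, ∀ s, Good (join O (certified ω R)) ω q a J T θ w s → J - dp s = k →
      ((iterV (tb O r ω q d a) (w, N) N).getD (N - 1 - vl s) false = true ↔
        inst a w s ∈ KL O) := by
  have hfew := S.few hg hdec
  have hshort := S.short hmax hdec
  intro k
  induction k using Nat.strong_induction_on with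
  | _ k ih =>
    intro s hs hk
    obtain ⟨g1, g2⟩ := hs.facts (n := n) (f := g) S.ilen hfew
    have g3 := S.ilen s g1 g2
    obtain ⟨g5, g6⟩ := S.Tt _ g1
    obtain ⟨g7, g8⟩ := S.decode g1
    have hvs := S.vlN s g1 g2
    obtain ⟨tab, e1, e2⟩ := tb_entry (O := O) (r := r) (ω := ω) (q := q) (d := d) a w
      (N := N) hvs
    have hpN : ∀ x ≤ t (dp s), 2 ^ x ≤ N + 1 := fun x hx =>
      (Nat.pow_le_pow_right (by norm_num) hx).trans (S.powN _ g1)
    have hkey : nv O r ω q d a ((w, s), (tab, N)) =
        d (xin a w s, answers (join O (certified ω R)) q (xin a w s) (2 ^ T (n (dp s)))) := by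
      refine nv_eq hRr a (T := T (n (dp s))) (θ := θ (n (dp s))) ?_ ?_ (hpN _ g5) (hpN _ g6) ?_
      · rw [g7, vlc_eq, vl_str, min_eq_right]
        have h1 := hpN _ g5
        have h2 : T (n (dp s)) < 2 ^ T (n (dp s)) := Nat.lt_two_pow_self
        omega
      · rw [g8, vlc_eq, vl_str, min_eq_right]
        have h1 := hpN _ g6
        have h2 : θ (n (dp s)) < 2 ^ θ (n (dp s)) := Nat.lt_two_pow_self
        omega
      · intro i hi Q hQ hθ
        have hb1 := hshort s g1 g3 i hi Q hQ
        refine ⟨fun hnJ => ?_, fun hltJ => ?_⟩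
        · rw [S.depth] at hnJ
          have hdJ : dp s = J := by omega
          rw [hdJ] at hb1
          exact S.deep _ hb1
        · rw [S.depth] at hltJ
          have hgood := Good.child s i Q hs hltJ (by rw [g3]; exact hi) hQ (by rw [g3]; exact hθ)
          rw [g3] at hgood
          obtain ⟨p, hp⟩ : ∃ p, p = sel ω q (θ (n (dp s))) (xin a w s)
              (answers (join O (certified ω R)) q (xin a w s) i) := ⟨_, rfl⟩
          rw [← hp] at hgood ⊢
          obtain ⟨f1, f2⟩ := hgood.facts (n := n) (f := g) S.ilen hfew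
          have f3 := S.zlen _ f1 f2
          rw [dp_child] at f3
          have hvlc := S.vlN _ f1 f2
          have hlt : vl s < vl (child s p) := by
            have h1 := vl_lt s
            have h2 := le_vl (child s p)
            have h3 : 2 ^ (s.length + 1) ≤ 2 ^ (child s p).length := by
              apply Nat.pow_le_pow_right (by norm_num)
              rw [length_child]
              omega
            omega
          rw [vlc_eq, min_eq_right hvlc.le, e2 _ hlt hvlc,
            ih (J - dp (child s p)) (by rw [dp_child]; omega) _ hgood rfl]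
          have hinst : inst a w (child s p) = red uS κS (zin a w (child s p)) := by
            unfold inst
            rw [dp_child, show decide (dp s + 1 = 0) = false from decide_eq_false (by omega),
              cond_false, S.codeS.1, S.codeS.2]
          rw [hinst, ← hS]
          exact S.small hRr hltJ f3 hi hQ hθ hp hb1
    rw [e1, hkey]
    have h1 := hdec.decides (inst a w s)
    rw [← g3, S.xin_eq g1 g3]
    exact h1.symm

end

end Pool.Agent.MP_92db0f_lc_thr
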