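import Pool.Agent.MP_92db0f_lc_thr.Lower3

/-!
For every oracle, `NE` is not contained in the class of languages decided with few long queries:
the theorem.
-/

set_option autoImplicit false

namespace Pool.Agent.MP_92db0f_lc_thr

open Turing Computability Lib.helper60 MP_92db0f_lc_alg
open MP_92db0f_lc hiding answers InNEXP

/-- **The lower bound.** -/
theorem lower (O : Set (List Bool)) {a b : ℕ} (hb : 1 ≤ b) (hab : b ≤ a) :
    ∃ L, InNE O L ∧ ∀ (C : ℕ) (T θ : ℕ → ℕ) (F : ℕ → ℕ → ℕ) (adv : ℕ → List Bool)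
      (ω : List Bool → List Bool) (R : List Bool × List Bool → Prop)
      (q : (List Bool × List Bool) × List Bool → List Bool)
      (d : (List Bool × List Bool) × List Bool → Bool),
      (∀ K : ℕ, ∃ n₀, ∀ n ≥ n₀, K * (T n + θ n) ≤ n) →
      (∀ K : ℕ, ∃ n₀, ∀ n ≥ n₀, K * (F n (θ n) + (adv n).length) ^ a ≤ n ^ b) →
      (∀ n ℓ, C * n ^ a + C < ℓ ^ b → F n ℓ = 0) →
      ¬ Decides O T F adv ω R q d L := by
  refine ⟨KL O, InNE_KL O, fun C T θ F adv ω R q d hsmall1 hsmall2 hmax hdec => ?_⟩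
  have hω : PT ω := PT_of_TM2 PT.id hdec.bound
  have hq := PT_of_TM2 PT_encz hdec.query
  have hd := PT_of_TM2' PT_encz hdec.decision
  obtain ⟨r, hr, hRr⟩ := OP.of_polyTime hdec.oracle
  obtain ⟨uS, κS, hS⟩ := KL_complete (InNE_Sset hr hω hq a)
  obtain ⟨κT, hκT⟩ : ∃ κ, κ = C * (2 * uS.length + 400 * κS + 202) ^ a + C + 1 := ⟨_, rfl⟩
  obtain ⟨uD, κD, hD⟩ := KL_complete (InNE_Dset hr hω hq hd a κT)
  obtain ⟨w, J, t, n, g, S, hw1, hw2, hg⟩ :=
    exists_setup hb hab hsmall1 hsmall2 uD uS κD κS κT hκT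
  have hS' : ∀ z, z ∈ Sset O r ω q a ↔ red uS κS z ∈ KL O := fun z => by
    rw [hS z, red]
  obtain ⟨X, hX⟩ : ∃ X, X = zin a w [] := ⟨_, rfl⟩
  rw [← hX] at S
  have hD' : X ∈ Dset O r ω q d a κT ↔ red uD κD X ∈ KL O := by
    rw [hD X, red]
  clear hD hS
  obtain ⟨N, hN⟩ : ∃ N, N = 2 ^ (κT * X.length + κT) - 1 := ⟨_, rfl⟩
  rw [← hN] at S
  have hroot := S.main hg hmax hdec hRr hS' (J - dp []) [] Good.nil rfl
  have h1 : inst a w [] = red uD κD X := by
    unfold inst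
    rw [dp_nil, show decide (0 = 0) = true from decide_eq_true rfl, cond_true, hw1, hw2, hX]
  have hvl : vl [] = 0 := rfl
  rw [h1, ← hD', hvl, Nat.sub_zero] at hroot
  have h3 : X ∈ Dset O r ω q d a κT ↔
      (!(iterV (tb O r ω q d a) (w, N) N).getD (N - 1) false) = true := by
    unfold Dset dv
    have h4 : (unpair (unpair X).1).1 = w := by
      rw [hX]
      unfold zin
      rw [unpair_padTo, unpair_enc]
    rw [Set.mem_ofPred_eq, h4, ← hN]
  rw [h3] at hroot
  cases h5 : (iterV (tb O r ω q d a) (w, N) N).getD (N - 1) false with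
  | true =>
    rw [h5] at hroot
    exact absurd (hroot.1 rfl) (by decide)
  | false =>
    rw [h5] at hroot
    exact absurd (hroot.2 rfl) (by decide)

end Pool.Agent.MP_92db0f_lc_thr
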