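import Pool.Agent.MP_92db0f_lc.Enum

/-!
Integer roots and quotients, computed in polynomial time (numbers in unary).
-/

set_option autoImplicit false

namespace Pool.Agent.MP_92db0f_lc_thr

open Lib.helper60 MP_92db0f_lc

/-- the greatest `t` with `c * t ^ k ≤ x` -/
def rtc (k c x : ℕ) : ℕ :=
  (List.range x).foldl (fun r _ => if c * (r + 1) ^ k ≤ x then r + 1 else r) 0

lemma rtc_aux (k c x : ℕ) (hk : 1 ≤ k) (s : ℕ) :
    c * ((List.range s).foldl (fun r _ => if c * (r + 1) ^ k ≤ x then r + 1 else r) 0) ^ k ≤ x ∧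
    ((List.range s).foldl (fun r _ => if c * (r + 1) ^ k ≤ x then r + 1 else r) 0 = s ∨
      x < c * ((List.range s).foldl
        (fun r _ => if c * (r + 1) ^ k ≤ x then r + 1 else r) 0 + 1) ^ k) := by
  induction s with
  | zero =>
    refine ⟨?_, Or.inl rfl⟩
    simp [show k ≠ 0 by omega]
  | succ s ih =>
    rw [List.range_succ, List.foldl_append, List.foldl_cons, List.foldl_nil]
    obtain ⟨h1, h2⟩ := ih
    set r := (List.range s).foldl (fun r _ => if c * (r + 1) ^ k ≤ x then r + 1 else r) 0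
    split_ifs with h
    · refine ⟨h, ?_⟩
      rcases h2 with h2 | h2
      · left
        omega
      · omega
    · exact ⟨h1, Or.inr (not_le.1 h)⟩

lemma le_rtc {k c x t : ℕ} (hk : 1 ≤ k) (hc : 1 ≤ c) : t ≤ rtc k c x ↔ c * t ^ k ≤ x := by
  obtain ⟨h1, h2⟩ := rtc_aux k c x hk x
  change c * rtc k c x ^ k ≤ x at h1
  change rtc k c x = x ∨ x < c * (rtc k c x + 1) ^ k at h2
  have h3 : x < c * (rtc k c x + 1) ^ k := by
    rcases h2 with h2 | h2
    · have h4 : rtc k c x + 1 ≤ (rtc k c x + 1) ^ k := Nat.le_self_pow (by omega) _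
      have h5 : (rtc k c x + 1) ^ k ≤ c * (rtc k c x + 1) ^ k := Nat.le_mul_of_pos_left _ hc
      omega
    · exact h2
  constructor
  · intro h
    exact (Nat.mul_le_mul_left c (Nat.pow_le_pow_left h k)).trans h1
  · intro h
    by_contra hlt
    have h4 : rtc k c x + 1 ≤ t := by omega
    have h5 := Nat.mul_le_mul_left c (Nat.pow_le_pow_left h4 k)
    omega

lemma PT_rtc {α : Type} [DEnc α] (k : ℕ) {c x : α → ℕ} (hc : PT c) (hx : PT x) :
    PT (fun a => rtc k (c a) (x a)) := by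
  unfold rtc
  refine PT.foldl_lin (g := fun z : α × ℕ × ℕ =>
    if c z.1 * (z.2.1 + 1) ^ k ≤ x z.1 then z.2.1 + 1 else z.2.1) (PT.range hx) (PT.const 0) ?_ 2 ?_
  · have h1 : PT (fun z : α × ℕ × ℕ => z.2.1 + 1) := PT.nsucc PT.snd.p1
    exact PT.ite (PT.nle (PT.nmul (hc.comp PT.fst) (PT_npow h1 k)) (hx.comp PT.fst)) h1 PT.snd.p1
  · intro a s b
    dsimp only
    split_ifs
    · rw [tsize_nat, tsize_nat]
      omega
    · omega

/-- division with remainder -/
lemma rtc_div {B i j : ℕ} (hj : j < B) : rtc 1 B (i * B + j) = i := by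
  have h0 : 1 ≤ B := by omega
  apply le_antisymm
  · by_contra h
    have h1 : i + 1 ≤ rtc 1 B (i * B + j) := by omega
    rw [le_rtc le_rfl h0, pow_one, Nat.mul_succ, Nat.mul_comm] at h1
    omega
  · rw [le_rtc le_rfl h0, pow_one, Nat.mul_comm]
    omega

end Pool.Agent.MP_92db0f_lc_thr
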