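import Pool.Agent.MP_92db0f_lc_thr.Lower2

/-!
The description of the input of the diagonal argument, and the bounds that it satisfies.
-/

set_option autoImplicit false

namespace Pool.Agent.MP_92db0f_lc_thr

open Turing Computability Lib.helper60 MP_92db0f_lc_alg
open MP_92db0f_lc hiding answers InNEXP

/-- the bounds for the description `w` -/
structure Setup (a b C : ℕ) (T θ : ℕ → ℕ) (adv : ℕ → List Bool) (w : List Bool) (J N : ℕ)
    (t n g : ℕ → ℕ) (uS : List Bool) (κS : ℕ) : Prop where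
  depth : pJ w = J
  codeS : puS w = uS ∧ pkS w = κS
  zlen : ∀ s, dp s ≤ J → s.length ≤ ∑ i ∈ Finset.range (dp s), (2 * g i + 2 * i + 6) →
    (zin a w s).length = 100 * t (dp s) + 100
  ilen : ∀ s, dp s ≤ J → s.length ≤ ∑ i ∈ Finset.range (dp s), (2 * g i + 2 * i + 6) →
    (inst a w s).length = n (dp s)
  info : ∀ j ≤ J, nthC (pch w) j = encPair (adv (n j), encPair (str (T (n j)), str (θ (n j))))
  Tt : ∀ j ≤ J, T (n j) ≤ t j ∧ θ (n j) ≤ t j
  Tt1 : ∀ j ≤ J, T (n j) + θ (n j) ≤ t (j + 1)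
  powN : ∀ j ≤ J, 2 ^ t j ≤ N + 1
  vlN : ∀ s, dp s ≤ J → s.length ≤ ∑ i ∈ Finset.range (dp s), (2 * g i + 2 * i + 6) → vl s < N
  deep : ∀ l, l ^ b ≤ C * n J ^ a + C → 2 ^ (l + 1) ≤ N + 1
  cert : ∀ j < J, ∀ l, l ^ b ≤ C * n j ^ a + C → l ≤ 2 ^ (100 * t (j + 1) + 100) - 1

theorem exists_setup {a b C : ℕ} (hb : 1 ≤ b) (hab : b ≤ a) {T θ : ℕ → ℕ} {F : ℕ → ℕ → ℕ}
    {adv : ℕ → List Bool} (hsmall1 : ∀ K : ℕ, ∃ n₀, ∀ n ≥ n₀, K * (T n + θ n) ≤ n)
    (hsmall2 : ∀ K : ℕ, ∃ n₀, ∀ n ≥ n₀, K * (F n (θ n) + (adv n).length) ^ a ≤ n ^ b)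
    (uD uS : List Bool) (κD κS κT : ℕ)
    (hκT : κT = C * (2 * uS.length + 400 * κS + 202) ^ a + C + 1) :
    ∃ (w : List Bool) (J : ℕ) (t n g : ℕ → ℕ),
      Setup a b C T θ adv w J (2 ^ (κT * (zin a w []).length + κT) - 1) t n g uS κS ∧
      puD w = uD ∧ pkD w = κD ∧ ∀ j, g j = F (n j) (θ (n j)) + (adv (n j)).length := by
  have ha : 1 ≤ a := hb.trans hab
  obtain ⟨cS, hcS⟩ : ∃ c, c = 2 * uS.length + 400 * κS + 202 := ⟨_, rfl⟩
  rw [← hcS] at hκT
  obtain ⟨c, hc⟩ : ∃ c, c = cS + (2 * uD.length + 400 * κD + 202) := ⟨_, rfl⟩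
  have hc1 : 1 ≤ c := by omega
  -- the size
  obtain ⟨n₁, hn₁⟩ := hsmall1 (c * 2 ^ a)
  obtain ⟨n₂, hn₂⟩ := hsmall2 ((64 * 2 ^ b) ^ a * c ^ b)
  obtain ⟨n₃, hn₃⟩ := poly_le_two_pow
    (4 * ((Polynomial.X + 2) * (Polynomial.C (6 * a) * (Polynomial.X + 1) + 16)) +
      4 * (12 * (Polynomial.X + 1)) +
      Polynomial.C (4 * (8 * uD.length + 4 * κD + 4 * uS.length + 2 * κS + 32)) +
      2 * ((Polynomial.X + 1) * (2 * (Polynomial.X + 1) + 6)))
  obtain ⟨n₄, hn₄⟩ := poly_le_two_pow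
    (Polynomial.C (C * c ^ a + C + 1) + Polynomial.C (a * a) * (Polynomial.X + 1))
  obtain ⟨s₁, hs₁⟩ : ∃ s, s = n₁ + n₂ + n₃ + n₄ + 1 := ⟨_, rfl⟩
  obtain ⟨e, he⟩ : ∃ e, e = a * s₁ := ⟨_, rfl⟩
  obtain ⟨J, hJ⟩ : ∃ J, J = s₁ * (a - b) + 1 := ⟨_, rfl⟩
  have hes : s₁ ≤ e := by rw [he]; exact Nat.le_mul_of_pos_left _ ha
  have hsab : s₁ * (a - b) + s₁ * b = e := by
    rw [← Nat.mul_add, he, Nat.mul_comm]
    congr 1
    omega
  have hJe : J ≤ e + 1 := by omega
  have hJb : e + 1 - J = s₁ * b := by omega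
  have hv3 := hn₃ e (by omega)
  have hv4 := hn₄ e (by omega)
  simp only [Polynomial.eval_add, Polynomial.eval_mul, Polynomial.eval_X, Polynomial.eval_C,
    Polynomial.eval_ofNat, Polynomial.eval_one] at hv3 hv4
  -- the lengths
  obtain ⟨t, ht⟩ : ∃ t : ℕ → ℕ, ∀ j, t j = 2 ^ (a * (e + 1 - j)) := ⟨_, fun _ => rfl⟩
  obtain ⟨M, hM⟩ : ∃ M, M = 2 ^ (b * e) := ⟨_, rfl⟩
  have ht1 : ∀ j, 1 ≤ t j := fun j => by rw [ht]; exact Nat.one_le_two_pow
  have hMt : ∀ j ≤ J, M ≤ t j := by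
    intro j hj
    rw [ht, hM]
    apply Nat.pow_le_pow_right (by norm_num)
    calc b * e = a * (s₁ * b) := by rw [he]; ring
      _ ≤ a * (e + 1 - j) := Nat.mul_le_mul_left _ (by omega)
  have h2eM : 2 ^ e ≤ M := by
    rw [hM]
    exact Nat.pow_le_pow_right (by norm_num) (Nat.le_mul_of_pos_left _ hb)
  have he2 : e < 2 ^ e := Nat.lt_two_pow_self
  obtain ⟨n, hn⟩ : ∃ n : ℕ → ℕ, ∀ j, n j = if j = 0 then
      2 * (uD.length + κD * (100 * t j + 100)) + 2 + (100 * t j + 100) else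
      2 * (uS.length + κS * (100 * t j + 100)) + 2 + (100 * t j + 100) := ⟨_, fun _ => rfl⟩
  have hnS : ∀ j, j ≠ 0 → n j ≤ cS * t j ∧ 100 * t j + 100 ≤ n j := by
    intro j hj
    rw [hcS]
    exact red_len (u := uS) (κ := κS) (X := List.replicate (100 * t j + 100) true) (ht1 j)
      (by rw [List.length_replicate])
      (by rw [hn, if_neg hj, length_red, List.length_replicate])
  have hnc : ∀ j, n j ≤ c * t j ∧ 100 * t j + 100 ≤ n j := by
    intro j
    by_cases hj : j = 0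
    · obtain ⟨h1, h2⟩ := red_len (u := uD) (κ := κD) (X := List.replicate (100 * t j + 100) true)
        (ht1 j) (by rw [List.length_replicate]) (n := n j)
        (by rw [hn, if_pos hj, length_red, List.length_replicate])
      exact ⟨h1.trans (Nat.mul_le_mul_right _ (by omega)), h2⟩
    · obtain ⟨h1, h2⟩ := hnS j hj
      exact ⟨h1.trans (Nat.mul_le_mul_right _ (by omega)), h2⟩
  have hbig : ∀ j ≤ J, s₁ ≤ n j := by
    intro j hj
    have h1 := hMt j hj
    have h2 := (hnc j).2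
    omega
  -- the smallness assumptions
  have hTt : ∀ j ≤ J, 2 ^ a * (T (n j) + θ (n j)) ≤ t j := by
    intro j hj
    have h1 := hn₁ (n j) (by have := hbig j hj; omega)
    have h2 : c * (2 ^ a * (T (n j) + θ (n j))) ≤ c * t j := by
      rw [← Nat.mul_assoc]
      exact h1.trans (hnc j).1
    exact Nat.le_of_mul_le_mul_left h2 hc1
  have htle : ∀ j ≤ J, ∀ x, 2 ^ a * x ≤ t j → x ≤ t (j + 1) := by
    intro j hj x hx
    have h1 : t j = 2 ^ a * t (j + 1) := by
      rw [ht, ht, ← pow_add]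
      congr 1
      have h2 : e + 1 - j = (e + 1 - (j + 1)) + 1 := by
        have h3 : 1 ≤ e + 1 - J := by
          rw [hJb]
          exact Nat.one_le_iff_ne_zero.2 (Nat.mul_ne_zero (by omega) (by omega))
        omega
      rw [h2, Nat.mul_add]
      ring
    rw [h1] at hx
    exact Nat.le_of_mul_le_mul_left hx (by positivity)
  have hT' : ∀ j ≤ J, T (n j) ≤ t j ∧ θ (n j) ≤ t j := by
    intro j hj
    have h1 := hTt j hj
    have h2 : T (n j) + θ (n j) ≤ 2 ^ a * (T (n j) + θ (n j)) :=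
      Nat.le_mul_of_pos_left _ (by positivity)
    omega
  obtain ⟨g, hg⟩ : ∃ g : ℕ → ℕ, ∀ j, g j = F (n j) (θ (n j)) + (adv (n j)).length :=
    ⟨_, fun _ => rfl⟩
  have hgM : ∀ j ≤ J, 64 * 2 ^ j * g j ≤ M := by
    intro j hj
    rw [hM, hg]
    refine small_bound ha hb hc1 (by omega) le_rfl ?_ (hn₂ (n j) (by have := hbig j hj; omega))
    rw [← ht]
    exact (hnc j).1
  have hgsum : ∀ k ≤ J + 1, 32 * ∑ j ∈ Finset.range k, g j ≤ M := fun k hk =>
    sum_geom g M k fun j hj => hgM j (by omega)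
  -- the description
  obtain ⟨info, hinfo⟩ : ∃ info : ℕ → List Bool, ∀ j, info j =
      encPair (adv (n j), encPair (str (T (n j)), str (θ (n j)))) := ⟨_, fun _ => rfl⟩
  obtain ⟨w, hw⟩ : ∃ w, w = mkw (2 ^ e) (e + 1) J uD κD uS κS (mkC info (J + 1)) := ⟨_, rfl⟩
  have w1 : pm w = 2 ^ e := by rw [hw, pm_mkw]
  have w2 : pe w = e + 1 := by rw [hw, pe_mkw]
  have w3 : pJ w = J := by rw [hw, pJ_mkw]
  have w4 : puD w = uD := by rw [hw, puD_mkw]
  have w5 : pkD w = κD := by rw [hw, pkD_mkw]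
  have w6 : puS w = uS := by rw [hw, puS_mkw]
  have w7 : pkS w = κS := by rw [hw, pkS_mkw]
  have w8 : ∀ j ≤ J, nthC (pch w) j = info j := by
    intro j hj
    rw [hw, pch_mkw]
    exact nthC_mkC _ _ _ (by omega)
  have hlvl : ∀ j, lvl a w j = 100 * t j + 100 := by
    intro j
    unfold lvl
    rw [w1, w2, p2_eq', ht]
    · have := Nat.one_le_two_pow (n := a * (e + 1 - j))
      omega
    · have h1 : 2 ^ (a * (e + 1 - j)) ≤ 2 ^ a * (2 ^ e) ^ a := by
        rw [← pow_mul, ← pow_add]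
        apply Nat.pow_le_pow_right (by norm_num)
        calc a * (e + 1 - j) ≤ a * (e + 1) := Nat.mul_le_mul_left _ (by omega)
          _ = a + e * a := by ring
      omega
  have htmax : ∀ j, t j ≤ 2 ^ (a * (e + 1)) := by
    intro j
    rw [ht]
    exact Nat.pow_le_pow_right (by norm_num) (Nat.mul_le_mul_left _ (by omega))
  -- the length of the description
  have hchain : (mkC info (J + 1)).length ≤
      4 * ∑ j ∈ Finset.range (J + 1), g j + (J + 1) * (6 * a * (e + 1) + 16) := by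
    rw [length_mkC, Finset.mul_sum]
    have h1 : ∀ j ∈ Finset.range (J + 1), 2 * (info j).length + 2 ≤
        4 * g j + (6 * a * (e + 1) + 16) := by
      intro j hj
      rw [Finset.mem_range] at hj
      obtain ⟨h2, h3⟩ := hT' j (by omega)
      have h4 := length_str_le (h2.trans (htmax j))
      have h5 := length_str_le (h3.trans (htmax j))
      rw [hinfo, length_encPair, length_encPair]
      have h6 : (adv (n j)).length ≤ g j := by rw [hg]; omega
      have h7 : 6 * a * (e + 1) = 6 * (a * (e + 1)) := by ring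
      clear hv3 hv4
      omega
    refine (Finset.sum_le_sum h1).trans ?_
    rw [Finset.sum_add_distrib, Finset.sum_const, Finset.card_range, smul_eq_mul]
  have hnode : ∀ k ≤ J, ∑ i ∈ Finset.range k, (2 * g i + 2 * i + 6) ≤
      2 * ∑ i ∈ Finset.range k, g i + (e + 1) * (2 * (e + 1) + 6) := by
    intro k hk
    have h1 : ∀ i ∈ Finset.range k, 2 * g i + 2 * i + 6 ≤ 2 * g i + (2 * (e + 1) + 6) := by
      intro i hi
      rw [Finset.mem_range] at hi
      omega
    refine (Finset.sum_le_sum h1).trans ?_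
    rw [Finset.sum_add_distrib, Finset.sum_const, Finset.card_range, smul_eq_mul,
      ← Finset.mul_sum]
    exact Nat.add_le_add_left (Nat.mul_le_mul_right _ (by omega)) _
  have hwlen : 4 * w.length + 2 * ((e + 1) * (2 * (e + 1) + 6)) ≤ 10 * M := by
    have h1 := hgsum (J + 1) le_rfl
    have h2 : (J + 1) * (6 * a * (e + 1) + 16) ≤ (e + 2) * (6 * a * (e + 1) + 16) :=
      Nat.mul_le_mul_right _ (by omega)
    rw [hw, length_mkw]
    omega
  have hslen : ∀ s, dp s ≤ J → s.length ≤ ∑ i ∈ Finset.range (dp s), (2 * g i + 2 * i + 6) →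
      4 * w.length + 2 * s.length ≤ 11 * M := by
    intro s hs1 hs2
    have h1 := hnode _ hs1
    have h2 := hgsum (dp s) (by omega)
    omega
  have hzlen : ∀ s, dp s ≤ J → s.length ≤ ∑ i ∈ Finset.range (dp s), (2 * g i + 2 * i + 6) →
      (zin a w s).length = 100 * t (dp s) + 100 := by
    intro s hs1 hs2
    unfold zin
    rw [hlvl]
    apply length_padTo
    rw [length_encPair]
    have h1 := hslen s hs1 hs2
    have h3 := hMt _ hs1
    omega
  have hXl : (zin a w []).length = 100 * t 0 + 100 := hzlen [] (Nat.zero_le _) (by simp)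
  obtain ⟨N, hN⟩ : ∃ N, N = 2 ^ (κT * (zin a w []).length + κT) - 1 := ⟨_, rfl⟩
  have hN1 : N + 1 = 2 ^ (κT * (100 * t 0 + 100) + κT) := by
    rw [hN, hXl]
    have := Nat.one_le_two_pow (n := κT * (100 * t 0 + 100) + κT)
    omega
  have hpowN : ∀ x ≤ 100 * t 0 + 101, 2 ^ x ≤ N + 1 := by
    intro x hx
    rw [hN1]
    apply Nat.pow_le_pow_right (by norm_num)
    have h1 : 100 * t 0 + 101 ≤ κT * (100 * t 0 + 101) := Nat.le_mul_of_pos_left _ (by omega)
    have h2 : κT * (100 * t 0 + 101) = κT * (100 * t 0 + 100) + κT := by ring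
    omega
  have ht0 : ∀ j, t j ≤ t 0 := by
    intro j
    rw [ht, ht]
    exact Nat.pow_le_pow_right (by norm_num) (Nat.mul_le_mul_left _ (by omega))
  refine ⟨w, J, t, n, g, ⟨w3, ⟨w6, w7⟩, hzlen, ?_, ?_, hT', ?_, ?_, ?_, ?_, ?_⟩, w4, w5, hg⟩
  · intro s hs1 hs2
    have h1 := hzlen s hs1 hs2
    unfold inst
    by_cases h : dp s = 0
    · rw [show decide (dp s = 0) = true from decide_eq_true h, cond_true, length_red, h1, w4, w5,
        hn, if_pos h]
    · rw [show decide (dp s = 0) = false from decide_eq_false h, cond_false, length_red, h1, w6,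
        w7, hn, if_neg h]
  · intro j hj
    rw [w8 j hj, hinfo]
  · intro j hj
    exact htle j hj _ (hTt j hj)
  · intro j _
    rw [← hN]
    exact hpowN _ (by have := ht0 j; omega)
  · intro s hs1 hs2
    rw [← hN]
    have h1 := hslen s hs1 hs2
    have h2 := vl_lt s
    have h3 := hMt 0 (Nat.zero_le _)
    have h4 := hpowN (s.length + 1) (by omega)
    omega
  · intro l hl
    rw [← hN, hN1]
    have hS1 := (hnS J (by omega)).1
    have hM' : t J = (2 ^ e) ^ b := by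
      rw [ht, hJb, ← pow_mul]
      congr 1
      rw [he]
      ring
    rw [hM'] at hS1
    have hb2 := pow_bound hb Nat.one_le_two_pow hS1 hl
    have hb3 : (2 ^ e) ^ a ≤ t 0 := by
      rw [ht, ← pow_mul]
      apply Nat.pow_le_pow_right (by norm_num)
      rw [Nat.mul_comm]
      exact Nat.mul_le_mul_left _ (by omega)
    apply Nat.pow_le_pow_right (by norm_num)
    have hb4 : (C * cS ^ a + C) * (2 ^ e) ^ a ≤ κT * (100 * t 0 + 100) :=
      Nat.mul_le_mul (by omega) (by omega)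
    omega
  · intro j hj l hl
    have h2 : l ≤ l ^ b := Nat.le_self_pow (by omega) _
    have h3 : n j ^ a ≤ (c * 2 ^ (a * (e + 1))) ^ a :=
      Nat.pow_le_pow_left ((hnc _).1.trans (Nat.mul_le_mul_left _ (htmax _))) _
    rw [mul_pow, ← pow_mul] at h3
    have h4 := Nat.mul_le_mul_left C h3
    have h5 : 1 ≤ 2 ^ (a * (e + 1) * a) := Nat.one_le_two_pow
    have h6 : C * (c ^ a * 2 ^ (a * (e + 1) * a)) + C + 1 ≤
        (C * c ^ a + C + 1) * 2 ^ (a * (e + 1) * a) := by nlinarith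
    have h7 : (C * c ^ a + C + 1) * 2 ^ (a * (e + 1) * a) ≤
        2 ^ (C * c ^ a + C + 1) * 2 ^ (a * (e + 1) * a) :=
      Nat.mul_le_mul_right _ Nat.lt_two_pow_self.le
    rw [← pow_add] at h7
    have h8 : 2 ^ (C * c ^ a + C + 1 + a * (e + 1) * a) ≤ 2 ^ (100 * t (j + 1) + 100) := by
      apply Nat.pow_le_pow_right (by norm_num)
      have h9 := hMt (j + 1) (by omega)
      have h10 : a * (e + 1) * a = a * a * (e + 1) := by ring
      omega
    omega

end Pool.Agent.MP_92db0f_lc_thr
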