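import Pool.Agent.MP_92db0f_lc_thr.Growth
import Pool.Agent.MP_92db0f_lc_mul.Final

/-!
The system of requirements for `NE`.
-/

set_option autoImplicit false

namespace Pool.Agent.MP_92db0f_lc_thr

open Turing Computability Lib.helper60 MP_92db0f_lc_alg
open MP_92db0f_lc hiding answers InNEXP
open MP_92db0f_lc_mul (Pr wt Agree mextOracle orc thirds answers_prs length_strFun exists_few
  exists_universal wgt)

lemma succ_pow_le (n k : ℕ) : (n + 1) ^ k ≤ 2 ^ k * (n ^ k + 1) := by
  rcases n with _ | n
  · have h1 : 0 < 2 ^ k * (0 ^ k + 1) := by positivity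
    rw [Nat.zero_add, one_pow]
    exact h1
  · have h1 : (n + 1 + 1) ^ k ≤ (2 * (n + 1)) ^ k := Nat.pow_le_pow_left (by omega) k
    rw [mul_pow] at h1
    exact h1.trans (Nat.mul_le_mul_left _ (by omega))

/-! ### machines -/

/-- the machine accepts `x` with a certificate of length at most `2 ^ (k |x| + k)` -/
def NAcc (μ : Mach) (O : Set (List Bool)) (x : List Bool) : Prop :=
  ∃ y : List Bool, y.length ≤ 2 ^ (μ.2.2.2 * x.length + μ.2.2.2) ∧ μ.Acc1 O x y

/-- every language in NE is accepted by a machine -/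
lemma exists_machN {O L : Set (List Bool)} (h : InNE O L) :
    ∃ μ : Mach, ∀ x, x ∈ L ↔ NAcc μ O x := by
  obtain ⟨k, R, ⟨q, d, P, ⟨hq⟩, ⟨hd⟩, hR⟩, hL⟩ := h
  obtain ⟨φ, T, hs⟩ := exists_table hq
  obtain ⟨φ', T', hs'⟩ := exists_table hd
  refine ⟨((φ, T), (φ', T'), P, k), fun x => ?_⟩
  rw [hL x]
  refine exists_congr fun y => and_congr_right fun _ => ?_
  rw [hR (x, y)]
  unfold Mach.Acc1
  have h1 : ∀ v, q ((x, y), v) = Mach.q ((φ, T), (φ', T'), P, k) (encPair (x, y), v) := by
    intro v
    exact (hs.strFun ((x, y), v)).symm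
  have h2 : ∀ v, d ((x, y), v) = Mach.d ((φ, T), (φ', T'), P, k) (encPair (x, y), v) := by
    intro v
    have h3 := hs'.strFun ((x, y), v)
    unfold Mach.d
    dsimp only at h3 ⊢
    rw [h3]
    rfl
  rw [h2, answers_congr O q _ (x, y) (encPair (x, y)) h1]

/-- the level bounds the logarithm of the total length of the queries -/
lemma exists_levelN (μ : Mach) (e : ℕ) : ∃ (κ : ℕ) (Q : Polynomial ℕ), e + 1 ≤ κ ∧
    (∀ z : List Bool × List Bool, (μ.q z).length ≤ Q.eval (2 * z.1.length + 2 + z.2.length)) ∧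
    ∀ n L : ℕ, L ≤ 2 * n + 2 + 2 ^ (μ.2.2.2 * n + μ.2.2.2) →
      μ.2.2.1.eval L * Q.eval (2 * L + 2 + μ.2.2.1.eval L) ≤ 2 ^ (κ * (n + 1)) := by
  obtain ⟨Q, hQ⟩ := length_strFun μ.1.1 μ.1.2
  obtain ⟨⟨φ, T⟩, ⟨φ', T'⟩, P, k⟩ := μ
  obtain ⟨G, hG⟩ : ∃ G : Polynomial ℕ, ∀ L, G.eval L = P.eval L * Q.eval (2 * L + 2 + P.eval L) :=
    ⟨P * Q.comp (2 * Polynomial.X + 2 + P), fun L => by simp [Polynomial.eval_comp]⟩
  refine ⟨e + 1 + G.eval 1 + (k + 3) * G.natDegree, Q, by omega, fun z => ?_, fun n L hL => ?_⟩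
  · have h3 := hQ (encPair z)
    have h4 : (encPair z).length = 2 * z.1.length + 2 + z.2.length := length_encPair z.1 z.2
    rw [h4] at h3
    exact h3
  · dsimp only at hL ⊢
    rw [← hG]
    have h2 : L ≤ 2 ^ ((k + 1) * n + (k + 3)) := by
      have h3 : n + 1 ≤ 2 ^ n := Nat.lt_two_pow_self
      have h4 : 2 ^ n ≤ 2 ^ ((k + 1) * n + k) :=
        Nat.pow_le_pow_right (by norm_num) (by nlinarith)
      have h5 : 2 ^ (k * n + k) ≤ 2 ^ ((k + 1) * n + k) :=
        Nat.pow_le_pow_right (by norm_num) (by nlinarith)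
      have h6 : 2 ^ ((k + 1) * n + (k + 3)) = 8 * 2 ^ ((k + 1) * n + k) := by
        rw [← Nat.add_assoc, pow_add]
        ring
      omega
    refine (evalMono G h2).trans ((eval_two_pow_le G _).trans ?_)
    apply Nat.pow_le_pow_right (by norm_num)
    nlinarith [Nat.zero_le (G.eval 1), Nat.zero_le e, Nat.zero_le n, Nat.zero_le G.natDegree,
      Nat.zero_le (G.eval 1 * n), Nat.zero_le (e * n), Nat.zero_le (G.natDegree * n),
      Nat.zero_le (G.natDegree * n * k)]

/-- the address of the block `u` of the counter of the class `t` -/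
def cdH (a b t : ℕ) (u : List Bool) : List Bool :=
  encPair (List.replicate (4 * (5 * pcf a b t + 10)) true,
    false :: encPair (List.replicate t true, u))

/-- the address of the block of the requirement `(e, x)` after the history `v` -/
def cdV (a b : ℕ) (lv : ℕ → List Bool → ℕ) (r : ℕ × List Bool) (v : List Bool) : List Bool :=
  encPair (List.replicate (4 * (5 * pcf a b (cls (lv r.1 r.2)) + 10)) true,
    true :: encPair (List.replicate r.1 true, encPair (r.2, v)))

/-- **The system of requirements.** -/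
theorem exists_sysN {a b : ℕ} (hb : 1 ≤ b) (hab : b ≤ a) {E : ℕ → Type} [∀ i, CommRing (E i)]
    {len : ℕ → ℕ} (cod : (i : ℕ) → E i → Fin (len i) → Bool)
    (hcod : ∀ i, Function.Injective (cod i)) (g : ℕ → Mach) :
    ∃ (Y : Sys E) (κ : ℕ → ℕ) (f : ℕ × List Bool → Y.Req), (∀ e, 1 ≤ κ e) ∧
      (∀ r, Y.lv (f r) = κ r.1 * (r.2.length + 1)) ∧ (∀ m, Y.τ m = τf a b m) ∧
      (∀ t u, Y.cdH t u = cdH a b t u) ∧
      (∀ r v, Y.cdV (f r) v = cdV a b (fun e x => κ e * (x.length + 1)) r v) ∧
      (∀ A r, Y.acc A (f r) ↔ NAcc (g r.1) (orc cod A) r.2) := by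
  classical
  have hκ := fun e => exists_levelN (g e) e
  choose κ Q hκ1 hQ hκ2 using hκ
  let lv : ℕ → List Bool → ℕ := fun e x => κ e * (x.length + 1)
  have hlv : ∀ e x, e ≤ lv e x ∧ x.length ≤ lv e x := by
    intro e x
    have h1 := hκ1 e
    change e ≤ κ e * (x.length + 1) ∧ x.length ≤ κ e * (x.length + 1)
    constructor <;> nlinarith
  choose Z hZ hZ' using exists_short
  have hfin : ∀ i, Finite (E i) := fun i => Finite.of_injective (cod i) (hcod i)
  obtain ⟨I, hI, hI'⟩ := exists_few len
  obtain ⟨pat, hpat⟩ := exists_universal (E := E) (w := wgt len)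
    (fun i => by unfold wgt; omega)
    (fun i => by
      refine (Nat.card_le_card_of_injective (cod i) (hcod i)).trans ?_
      rw [Nat.card_eq_fintype_card, Fintype.card_fun, Fintype.card_bool, Fintype.card_fin]
      exact Nat.pow_le_pow_right (by norm_num) (by unfold wgt; omega))
    hI hI'
  have hrep : ∀ s t : ℕ, List.replicate s true = List.replicate t true → s = t := by
    intro s t h
    simpa using congrArg List.length h
  refine ⟨{ w := wgt len
            pat := pat
            hpat := hpat
            Req := ℕ × List Bool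
            lv := fun r => lv r.1 r.2
            Rq := fun m => ((Finset.range (m + 1)) ×ˢ Z m).filter fun r => lv r.1 r.2 = m
            mem_Rq := ?_
            card_Rq := ?_
            cdH := cdH a b
            cdV := cdV a b lv
            cdH_inj := ?_
            cdV_inj := ?_
            cd_ne := ?_
            pc := pcf a b
            τ := τf a b
            pc_mono := pcf_mono hb
            τ_iff := τf_iff hb hab
            le_pc := le_pcf hb hab
            cdH_len := ?_
            cdV_len := ?_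
            acc := fun A r => NAcc (g r.1) (orc cod A) r.2
            use := ?_ }, κ, id, fun e => by have := hκ1 e; omega, fun r => rfl, fun m => rfl,
            fun t u => rfl, fun r v => rfl, fun A r => Iff.rfl⟩
  · rintro m ⟨e, x⟩
    rw [Finset.mem_filter, Finset.mem_product, Finset.mem_range]
    constructor
    · exact fun h => h.2
    · intro h
      obtain ⟨h1, h2⟩ := hlv e x
      dsimp only at h ⊢
      rw [h] at h1 h2
      exact ⟨⟨by omega, hZ' m x h2⟩, h⟩
  · intro m
    refine (Finset.card_filter_le _ _).trans ?_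
    rw [Finset.card_product, Finset.card_range]
    have h1 : m + 1 ≤ 2 ^ (m + 1) := Nat.lt_two_pow_self.le
    calc (m + 1) * (Z m).card ≤ 2 ^ (m + 1) * 2 ^ (m + 1) := Nat.mul_le_mul h1 (hZ m)
      _ = 2 ^ (2 * m + 2) := by rw [← pow_add]; congr 1; ring
  · intro t u t' u' h
    unfold cdH at h
    have h1 := encPair_inj h
    rw [Prod.mk.injEq, List.cons.injEq] at h1
    have h2 := encPair_inj h1.2.2
    rw [Prod.mk.injEq] at h2
    exact ⟨hrep _ _ h2.1, h2.2⟩
  · rintro ⟨e, x⟩ u ⟨e', x'⟩ u' h
    unfold cdV at h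
    have h1 := encPair_inj h
    rw [Prod.mk.injEq, List.cons.injEq] at h1
    have h2 := encPair_inj h1.2.2
    rw [Prod.mk.injEq] at h2
    have h3 := encPair_inj h2.2
    rw [Prod.mk.injEq] at h3
    exact ⟨Prod.ext (hrep _ _ h2.1) h3.1, h3.2⟩
  · intro t u r v h
    unfold cdH cdV at h
    have h1 := encPair_inj h
    rw [Prod.mk.injEq, List.cons.injEq] at h1
    exact absurd h1.2.1 (by decide)
  · intro t u
    unfold cdH
    rw [length_encPair, List.length_replicate]
    omega
  · rintro ⟨e, x⟩ u
    unfold cdV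
    rw [length_encPair, List.length_replicate]
    dsimp only
    omega
  · rintro A ⟨e, x⟩ ⟨y, hy, hacc⟩
    have hL : (encPair (x, y)).length ≤ 2 * x.length + 2 + 2 ^ ((g e).2.2.2 * x.length +
        (g e).2.2.2) := by
      rw [length_encPair]
      dsimp only at hy
      omega
    obtain ⟨S, hS, h⟩ := answers_prs cod hcod (g e).q (encPair (x, y)) A
      ((Q e).eval (2 * (encPair (x, y)).length + 2 + (g e).2.2.1.eval (encPair (x, y)).length))
      ((g e).2.2.1.eval (encPair (x, y)).length) (fun i hi => by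
        refine (hQ e _).trans (evalMono (Q e) ?_)
        dsimp only
        rw [answers_length]
        omega)
    refine ⟨S, hS.trans (hκ2 e _ _ hL), fun B hB => ⟨y, hy, ?_⟩⟩
    unfold Mach.Acc1 at hacc ⊢
    rw [← h B hB _ le_rfl]
    exact hacc

/-! ### the oracle in UP -/

/-- the certificate condition of the unambiguous oracle -/
def thR (A : Set (List Bool)) (p : List Bool × List Bool) : Prop :=
  p.2.length = p.1.length ∧ p.1 ++ (p.2 ++ p.2) ∈ A

lemma certified_thR (A : Set (List Bool)) : certified (fun w => w) (thR A) = thirds A := by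
  ext z
  constructor
  · rintro ⟨y, -, h1, h2⟩
    exact ⟨y, h1, h2⟩
  · rintro ⟨y, h1, h2⟩
    exact ⟨y, h1.le, h1, h2⟩

lemma polyTime_thR (A : Set (List Bool)) : PolyTime encPair A (thR A) := by
  have h1 : PT (fun w : List Bool => unpair (unpair w).1) := PT_unpair.comp PT_unpair.p1
  refine ⟨fun z => z.1.1 ++ (z.1.2 ++ z.1.2), fun z => decide (z.1.2.length = z.1.1.length) &&
    z.2.headD false, 1, ?_, ?_, ?_⟩
  · refine PT.toTM2 (F := fun w => (unpair (unpair w).1).1 ++
      ((unpair (unpair w).1).2 ++ (unpair (unpair w).1).2)) ?_ ?_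
    · exact PT.append h1.p1 (PT.append h1.p2 h1.p2)
    · intro a
      simp only [unpair_enc]
  · refine PT.decider (F := fun w => decide ((unpair (unpair w).1).2.length =
      (unpair (unpair w).1).1.length) && (unpair w).2.headD false) ?_ ?_
    · exact PT.band (PT.neq (PT.length h1.p2) (PT.length h1.p1))
        (PT.headD PT_unpair.p2 (PT.const false))
    · intro a
      simp only [unpair_enc]
  · rintro ⟨x, y⟩
    simp [answers, thR]

lemma answers_getD {α : Type} (O : Set (List Bool)) (q : α × List Bool → List Bool) (a : α)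
    {i n : ℕ} (h : i < n) : (answers O q a n).getD i false =
      @decide (q (a, answers O q a i) ∈ O) (Classical.propDecidable _) := by
  have h1 := answers_take O q a (Nat.succ_le_of_lt h)
  have h2 : (answers O q a n).getD i false = (answers O q a (i + 1)).getD i false := by
    rw [← h1, List.getD_eq_getElem?_getD, List.getD_eq_getElem?_getD, List.getElem?_take,
      if_pos (by omega)]
  rw [h2, answers, List.getD_append_right _ _ _ _ (by rw [answers_length]), answers_length,
    Nat.sub_self]
  rfl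

end Pool.Agent.MP_92db0f_lc_thr
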